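import Mathlib

/-!
# Uniform estimates for the Cauchy-Riemann equation: definitions

Complex Euclidean space of dimension `n` is modelled as `Fin n → ℂ` with its Lebesgue measure.
-/

namespace Pool.Agent.Helper31.Dbar

open MeasureTheory
open scoped ContDiff ENNReal NNReal

noncomputable section

/-- The open unit ball (for the Euclidean norm) of `ℂⁿ`. -/
def unitBall (n : ℕ) : Set (Fin n → ℂ) := {z | ∑ i, ‖z i‖ ^ 2 < 1}

/-- The Wirtinger derivative `∂θ/∂z̄_j = (∂θ/∂x_j + i ∂θ/∂y_j)/2`. -/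
def dbar {n : ℕ} (j : Fin n) (θ : (Fin n → ℂ) → ℂ) (p : Fin n → ℂ) : ℂ :=
  (1 / 2) * (fderiv ℝ θ p (Pi.single j 1) + Complex.I * fderiv ℝ θ p (Pi.single j Complex.I))

/-- Test functions: complex valued, infinitely differentiable (in the real sense), with compact
support contained in `Ω`. -/
structure IsTest {n : ℕ} (Ω : Set (Fin n → ℂ)) (θ : (Fin n → ℂ) → ℂ) : Prop where
  smooth : ContDiff ℝ ∞ θ
  compact : HasCompactSupport θ
  supp : tsupport θ ⊆ Ω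

/-- The `(0,1)`-form `∑ f_j dz̄_j` is `∂̄`-closed on `Ω` in the sense of distributions:
`∂f_k/∂z̄_j = ∂f_j/∂z̄_k` tested against all test functions. -/
def DbarClosed {n : ℕ} (Ω : Set (Fin n → ℂ)) (f : Fin n → (Fin n → ℂ) → ℂ) : Prop :=
  ∀ j k : Fin n, ∀ θ : (Fin n → ℂ) → ℂ, IsTest Ω θ →
    ∫ p in Ω, f k p * dbar j θ p = ∫ p in Ω, f j p * dbar k θ p

/-- `∂̄u = f` on `Ω` in the sense of distributions. -/
def DbarSolves {n : ℕ} (Ω : Set (Fin n → ℂ)) (u : (Fin n → ℂ) → ℂ)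
    (f : Fin n → (Fin n → ℂ) → ℂ) : Prop :=
  ∀ j : Fin n, ∀ θ : (Fin n → ℂ) → ℂ, IsTest Ω θ →
    ∫ p in Ω, u p * dbar j θ p = - ∫ p in Ω, f j p * θ p

/-- The sup norm `ess sup_Ω (∑ |f_j|²)^{1/2}` of a `(0,1)`-form. -/
def formNorm {n : ℕ} (Ω : Set (Fin n → ℂ)) (f : Fin n → (Fin n → ℂ) → ℂ) : ℝ≥0∞ :=
  eLpNorm (fun p => √(∑ j, ‖f j p‖ ^ 2)) ⊤ (volume.restrict Ω)

/-- `∂̄` satisfies uniform estimates on `Ω`. -/
def UniformEstimates {n : ℕ} (Ω : Set (Fin n → ℂ)) : Prop :=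
  ∃ C : ℝ≥0, ∀ f : Fin n → (Fin n → ℂ) → ℂ,
    (∀ j, MemLp (f j) ⊤ (volume.restrict Ω)) → DbarClosed Ω f →
      ∃ u : (Fin n → ℂ) → ℂ, MemLp u ⊤ (volume.restrict Ω) ∧ DbarSolves Ω u f ∧
        eLpNorm u ⊤ (volume.restrict Ω) ≤ C * formNorm Ω f

/-- Bounded domains. -/
structure IsBoundedDomain {n : ℕ} (Ω : Set (Fin n → ℂ)) : Prop where
  open_ : IsOpen Ω
  connected : IsConnected Ω
  bounded : Bornology.IsBounded Ω

/-- `Ω` is biholomorphic to the unit ball of `ℂⁿ`. -/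
def BiholomorphicToBall {n : ℕ} (Ω : Set (Fin n → ℂ)) : Prop :=
  ∃ F G : (Fin n → ℂ) → (Fin n → ℂ),
    DifferentiableOn ℂ F (unitBall n) ∧ DifferentiableOn ℂ G Ω ∧
    Set.MapsTo F (unitBall n) Ω ∧ Set.MapsTo G Ω (unitBall n) ∧
    (∀ z ∈ unitBall n, G (F z) = z) ∧ (∀ p ∈ Ω, F (G p) = p)

end

end Pool.Agent.Helper31.Dbar
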