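import Mathlib
import Pool.Agent.Helper31.Dbar.Defs

/-!
# Integration by parts against test functions
-/

namespace Pool.Agent.Helper31.Dbar

open MeasureTheory Complex Filter Topology
open scoped ContDiff

noncomputable section

variable {n : ℕ}

lemma cont_mul_of_supp {X : Type*} [TopologicalSpace X] {U : Set X} (hU : IsOpen U) {g φ : X → ℂ}
    (hg : ContinuousOn g U) (hφ : Continuous φ) (hs : tsupport φ ⊆ U) :
    Continuous fun x => g x * φ x := by
  rw [continuous_iff_continuousAt]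
  intro x
  by_cases hx : x ∈ U
  · exact (hg.continuousAt (hU.mem_nhds hx)).mul hφ.continuousAt
  · have hx' : x ∉ tsupport φ := fun h => hx (hs h)
    have h1 : φ =ᶠ[𝓝 x] 0 := notMem_tsupport_iff_eventuallyEq.mp hx'
    have h2 : (fun _ => (0 : ℂ)) =ᶠ[𝓝 x] fun x => g x * φ x := by
      filter_upwards [h1] with y hy
      rw [hy]; simp
    exact continuousAt_const.congr h2

lemma int_mul_of_supp {U : Set (Fin n → ℂ)} (hU : IsOpen U)
    {g φ : (Fin n → ℂ) → ℂ} (hg : ContinuousOn g U) (hφ : Continuous φ)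
    (hc : HasCompactSupport φ) (hs : tsupport φ ⊆ U) :
    Integrable fun x => g x * φ x :=
  (cont_mul_of_supp hU hg hφ hs).integrable_of_hasCompactSupport hc.mul_left

lemma ibp {U Ω : Set (Fin n → ℂ)} (hU : IsOpen U) (hΩ : Ω ⊆ U)
    {f θ : (Fin n → ℂ) → ℂ} (hf : ContDiffOn ℝ 1 f U) (hθ : IsTest Ω θ) (j : Fin n) :
    ∫ p, f p * dbar j θ p = - ∫ p, dbar j f p * θ p := by
  have hs : tsupport θ ⊆ U := hθ.supp.trans hΩ
  have hθ1 : ContDiff ℝ 1 θ := hθ.smooth.of_le (by exact_mod_cast le_top)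
  have hfc : ContinuousOn f U := hf.continuousOn
  have hf' : ContinuousOn (fderiv ℝ f) U := hf.continuousOn_fderiv_of_isOpen hU le_rfl
  have hθ' : Continuous (fderiv ℝ θ) := hθ1.continuous_fderiv one_ne_zero
  have key : ∀ v : Fin n → ℂ, Integrable (fun x => f x * fderiv ℝ θ x v) ∧
      Integrable (fun x => fderiv ℝ f x v * θ x) ∧
      ∫ x, f x * fderiv ℝ θ x v = - ∫ x, fderiv ℝ f x v * θ x := by
    intro v
    have i1 : Integrable (fun x => f x * fderiv ℝ θ x v) :=
      int_mul_of_supp hU hfc (hθ'.clm_apply continuous_const)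
        (hθ.compact.fderiv_apply ℝ v) ((tsupport_fderiv_apply_subset ℝ v).trans hs)
    have i2 : Integrable (fun x => fderiv ℝ f x v * θ x) :=
      int_mul_of_supp hU (hf'.clm_apply continuousOn_const) hθ1.continuous hθ.compact hs
    have i3 : Integrable (fun x => f x * θ x) :=
      int_mul_of_supp hU hfc hθ1.continuous hθ.compact hs
    refine ⟨i1, i2, ?_⟩
    apply integral_mul_fderiv_eq_neg_fderiv_mul_of_integrable i2 i1 i3
    · intro x hx
      exact (hf.contDiffAt (hU.mem_nhds (hs hx))).differentiableAt one_ne_zero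
    · intro x _
      exact hθ1.differentiable one_ne_zero x
  obtain ⟨a1, a2, a3⟩ := key (Pi.single j 1)
  obtain ⟨b1, b2, b3⟩ := key (Pi.single j I)
  have e1 : ∫ p, f p * dbar j θ p = (1 / 2) * (∫ p, f p * fderiv ℝ θ p (Pi.single j 1)) +
      (I / 2) * ∫ p, f p * fderiv ℝ θ p (Pi.single j I) := by
    rw [← integral_const_mul, ← integral_const_mul,
      ← integral_add (a1.const_mul _) (b1.const_mul _)]
    congr 1
    funext p
    unfold dbar
    ring
  have e2 : ∫ p, dbar j f p * θ p = (1 / 2) * (∫ p, fderiv ℝ f p (Pi.single j 1) * θ p) +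
      (I / 2) * ∫ p, fderiv ℝ f p (Pi.single j I) * θ p := by
    rw [← integral_const_mul, ← integral_const_mul,
      ← integral_add (a2.const_mul _) (b2.const_mul _)]
    congr 1
    funext p
    unfold dbar
    ring
  rw [e1, e2, a3, b3]
  ring

lemma dbar_eq_zero_of_notMem {θ : (Fin n → ℂ) → ℂ} {p : Fin n → ℂ} (hp : p ∉ tsupport θ)
    (j : Fin n) : dbar j θ p = 0 := by
  have h1 : fderiv ℝ θ p = 0 := by
    by_contra hcon
    exact hp (support_fderiv_subset ℝ hcon)
  unfold dbar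
  rw [h1]
  simp

lemma setInt_dbar {Ω : Set (Fin n → ℂ)} {f θ : (Fin n → ℂ) → ℂ} (hθ : IsTest Ω θ) (j : Fin n) :
    ∫ p in Ω, f p * dbar j θ p = ∫ p, f p * dbar j θ p := by
  apply setIntegral_eq_integral_of_forall_compl_eq_zero
  intro p hp
  rw [dbar_eq_zero_of_notMem (fun h => hp (hθ.supp h)), mul_zero]

lemma setInt_test {Ω : Set (Fin n → ℂ)} {f θ : (Fin n → ℂ) → ℂ} (hθ : IsTest Ω θ) :
    ∫ p in Ω, f p * θ p = ∫ p, f p * θ p := by
  apply setIntegral_eq_integral_of_forall_compl_eq_zero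
  intro p hp
  rw [image_eq_zero_of_notMem_tsupport (fun h => hp (hθ.supp h)), mul_zero]

/-- classical closedness implies closedness in the sense of distributions -/
lemma closed_of_pointwise {U Ω : Set (Fin 2 → ℂ)} (hU : IsOpen U) (hΩ : Ω ⊆ U)
    {f : Fin 2 → (Fin 2 → ℂ) → ℂ} (hf : ∀ j, ContDiffOn ℝ 1 (f j) U)
    (hc : ∀ p ∈ U, dbar 1 (f 0) p = dbar 0 (f 1) p) : DbarClosed Ω f := by
  have key : ∀ θ, IsTest Ω θ → ∫ p in Ω, f 1 p * dbar 0 θ p = ∫ p in Ω, f 0 p * dbar 1 θ p := by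
    intro θ hθ
    rw [setInt_dbar hθ, setInt_dbar hθ, ibp hU hΩ (hf 1) hθ 0, ibp hU hΩ (hf 0) hθ 1]
    congr 2
    funext p
    by_cases hp : p ∈ U
    · rw [hc p hp]
    · rw [image_eq_zero_of_notMem_tsupport (fun h => hp (hΩ (hθ.supp h))), mul_zero, mul_zero]
  intro j k θ hθ
  fin_cases j <;> fin_cases k
  · rfl
  · exact key θ hθ
  · exact (key θ hθ).symm
  · rfl

end

end Pool.Agent.Helper31.Dbar
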