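import Mathlib

/-!
# A bounded holomorphic function on the unit disc with large derivative

A Rudin-Shapiro type product: `P_{k+1} = P_k + a_k z^{n_k} Q_k`, `Q_{k+1} = z^{n_k} Q_k - a_k P_k`
with `a_k = 1/(k+1)` and very rapidly increasing exponents `n_k`.
-/

namespace Pool.Agent.Helper31.Dbar

open Polynomial Filter Topology

noncomputable section

/-- the coefficients `1/(k+1)` -/
def ak (k : ℕ) : ℝ := 1 / ((k : ℝ) + 1)

lemma ak_pos (k : ℕ) : 0 < ak k := by unfold ak; positivity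

lemma ak_le_one (k : ℕ) : ak k ≤ 1 := by
  unfold ak
  rw [div_le_one (by positivity)]
  have : (0 : ℝ) ≤ k := Nat.cast_nonneg k
  linarith

lemma ak_anti {i j : ℕ} (h : i ≤ j) : ak j ≤ ak i := by
  unfold ak
  have : (i : ℝ) ≤ j := by exact_mod_cast h
  have : (0 : ℝ) ≤ i := Nat.cast_nonneg i
  apply one_div_le_one_div_of_le <;> linarith

/-- a small absolute constant -/
def del : ℝ := Real.exp (-8) / 12

lemma del_pos : 0 < del := by unfold del; positivity

lemma del_le : del ≤ 1 / 12 := by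
  unfold del
  have : Real.exp (-8) ≤ 1 := Real.exp_le_one_iff.mpr (by norm_num)
  linarith

/-- state of the recursion -/
structure St where
  P : ℂ[X]
  Q : ℂ[X]
  m : ℕ

/-- conditions on the next exponent -/
def Good (k : ℕ) (s : St) (n : ℕ) : Prop :=
  (k + 1) ^ 4 ≤ n ∧ 4 ≤ n ∧ 2 * s.m < n ∧ s.P.natDegree < n ∧ s.Q.natDegree ≤ n ∧
  (∀ z : ℂ, ‖z‖ ≤ 1 → ‖s.P.derivative.eval z‖ ≤ del * ak k * n) ∧
  (∀ z : ℂ, ‖z‖ ≤ 1 → ‖s.Q.derivative.eval z‖ ≤ del * n) ∧
  3 * (1 - 1 / (8 * (s.m : ℝ))) ^ n ≤ del * ak k * (1 / 2) ^ k / 16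

lemma poly_bound (p : ℂ[X]) : ∃ B : ℝ, ∀ z : ℂ, ‖z‖ ≤ 1 → ‖p.eval z‖ ≤ B := by
  obtain ⟨B, hB⟩ := (isCompact_closedBall (0 : ℂ) 1).exists_bound_of_continuousOn
    (f := fun z => p.eval z) (by fun_prop)
  exact ⟨B, fun z hz => hB z (by simpa using hz)⟩

lemma eventually_ge_mul {B c : ℝ} (hc : 0 < c) : ∀ᶠ n : ℕ in atTop, B ≤ c * n := by
  have h : Tendsto (fun n : ℕ => c * (n : ℝ)) atTop atTop :=
    Tendsto.const_mul_atTop hc tendsto_natCast_atTop_atTop
  exact h.eventually_ge_atTop B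

lemma exists_good (k : ℕ) (s : St) (hs : 1 ≤ s.m) : ∃ n, Good k s n := by
  obtain ⟨B, hB⟩ := poly_bound s.P.derivative
  obtain ⟨B', hB'⟩ := poly_bound s.Q.derivative
  have h1 : ∀ᶠ n : ℕ in atTop, (k + 1) ^ 4 ≤ n := eventually_ge_atTop _
  have h2 : ∀ᶠ n : ℕ in atTop, 4 ≤ n := eventually_ge_atTop _
  have h3 : ∀ᶠ n : ℕ in atTop, 2 * s.m < n := eventually_gt_atTop _
  have h4 : ∀ᶠ n : ℕ in atTop, s.P.natDegree < n := eventually_gt_atTop _
  have h5 : ∀ᶠ n : ℕ in atTop, s.Q.natDegree ≤ n := eventually_ge_atTop _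
  have h6 : ∀ᶠ n : ℕ in atTop, B ≤ (del * ak k) * n :=
    eventually_ge_mul (mul_pos del_pos (ak_pos k))
  have h7 : ∀ᶠ n : ℕ in atTop, B' ≤ del * n := eventually_ge_mul del_pos
  have hm : (1 : ℝ) ≤ s.m := by exact_mod_cast hs
  have h8 : Tendsto (fun n : ℕ => 3 * (1 - 1 / (8 * (s.m : ℝ))) ^ n) atTop (𝓝 (3 * 0)) := by
    apply Tendsto.const_mul
    apply tendsto_pow_atTop_nhds_zero_of_lt_one
    · have : 1 / (8 * (s.m : ℝ)) ≤ 1 := by
        rw [div_le_one (by positivity)]; linarith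
      linarith
    · have : 0 < 1 / (8 * (s.m : ℝ)) := by positivity
      linarith
  have h9 : ∀ᶠ n : ℕ in atTop,
      3 * (1 - 1 / (8 * (s.m : ℝ))) ^ n ≤ del * ak k * (1 / 2) ^ k / 16 := by
    apply h8.eventually_le_const
    have := del_pos
    have := ak_pos k
    rw [mul_zero]
    positivity
  obtain ⟨n, g1, g2, g3, g4, g5, g6, g7, g9⟩ :=
    (h1.and (h2.and (h3.and (h4.and (h5.and (h6.and (h7.and h9))))))).exists
  exact ⟨n, g1, g2, g3, g4, g5, fun z hz => (hB z hz).trans g6, fun z hz => (hB' z hz).trans g7,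
    g9⟩

open Classical in
/-- one step of the recursion -/
def nxt (k : ℕ) (s : St) : St :=
  if h : ∃ n, Good k s n then
    ⟨s.P + C (ak k : ℂ) * (X ^ (Classical.choose h) * s.Q),
      X ^ (Classical.choose h) * s.Q - C (ak k : ℂ) * s.P, Classical.choose h⟩
  else s

/-- the recursion -/
def sq : ℕ → St
  | 0 => ⟨0, 1, 1⟩
  | k + 1 => nxt k (sq k)

lemma sq_m_pos (k : ℕ) : 1 ≤ (sq k).m := by
  induction k with
  | zero => simp [sq]
  | succ k ih =>
    have h := exists_good k (sq k) ih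
    simp only [sq, nxt, dif_pos h]
    have := (Classical.choose_spec h).2.1
    omega

/-- the exponents -/
def nn (k : ℕ) : ℕ := (sq (k + 1)).m

/-- the polynomials `P_k` -/
def PP (k : ℕ) : ℂ[X] := (sq k).P

/-- the polynomials `Q_k` -/
def QQ (k : ℕ) : ℂ[X] := (sq k).Q

lemma good_nn (k : ℕ) : Good k (sq k) (nn k) := by
  have h := exists_good k (sq k) (sq_m_pos k)
  simp only [nn, sq, nxt, dif_pos h]
  exact Classical.choose_spec h

lemma PP_succ (k : ℕ) : PP (k + 1) = PP k + C (ak k : ℂ) * (X ^ (nn k) * QQ k) := by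
  have h := exists_good k (sq k) (sq_m_pos k)
  simp only [PP, QQ, nn, sq, nxt, dif_pos h]

lemma QQ_succ (k : ℕ) : QQ (k + 1) = X ^ (nn k) * QQ k - C (ak k : ℂ) * PP k := by
  have h := exists_good k (sq k) (sq_m_pos k)
  simp only [PP, QQ, nn, sq, nxt, dif_pos h]

lemma PP_zero : PP 0 = 0 := rfl
lemma QQ_zero : QQ 0 = 1 := rfl

lemma nn_pow (k : ℕ) : (k + 1) ^ 4 ≤ nn k := (good_nn k).1
lemma nn_four (k : ℕ) : 4 ≤ nn k := (good_nn k).2.1
lemma nn_two (k : ℕ) : 2 * nn k < nn (k + 1) := (good_nn (k + 1)).2.2.1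
lemma PP_deg (k : ℕ) : (PP k).natDegree < nn k := (good_nn k).2.2.2.1
lemma QQ_deg (k : ℕ) : (QQ k).natDegree ≤ nn k := (good_nn k).2.2.2.2.1
lemma PP_deriv (k : ℕ) (z : ℂ) (hz : ‖z‖ ≤ 1) :
    ‖(PP k).derivative.eval z‖ ≤ del * ak k * nn k := (good_nn k).2.2.2.2.2.1 z hz
lemma QQ_deriv (k : ℕ) (z : ℂ) (hz : ‖z‖ ≤ 1) :
    ‖(QQ k).derivative.eval z‖ ≤ del * nn k := (good_nn k).2.2.2.2.2.2.1 z hz
lemma nn_tail (k : ℕ) :
    3 * (1 - 1 / (8 * (nn k : ℝ))) ^ (nn (k + 1)) ≤ del * ak (k + 1) * (1 / 2) ^ (k + 1) / 16 :=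
  (good_nn (k + 1)).2.2.2.2.2.2.2

lemma nn_mono : StrictMono nn := by
  apply strictMono_nat_of_lt_succ
  intro k
  have := nn_two k
  omega

lemma nn_pos (k : ℕ) : (0 : ℝ) < nn k := by
  have := nn_four k
  exact_mod_cast (by omega : 0 < nn k)

/-- `Q_k` is monic -/
lemma QQ_monic (k : ℕ) : (QQ k).Monic := by
  induction k with
  | zero => rw [QQ_zero]; exact monic_one
  | succ k ih =>
    rw [QQ_succ, sub_eq_add_neg]
    apply Monic.add_of_left
    · exact (monic_X_pow _).mul ih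
    · rw [degree_neg]
      have h1 : (C (ak k : ℂ) * PP k).degree ≤ (PP k).degree := by
        refine (degree_mul_le _ _).trans ?_
        calc (C (ak k : ℂ)).degree + (PP k).degree ≤ 0 + (PP k).degree := by
              gcongr; exact degree_C_le
          _ = (PP k).degree := zero_add _
      have h2 : (PP k).degree < (nn k : WithBot ℕ) := by
        rcases eq_or_ne (PP k) 0 with h | h
        · rw [h, degree_zero]; exact WithBot.bot_lt_coe _
        · rw [degree_eq_natDegree h]; exact_mod_cast PP_deg k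
      have h3 : (nn k : WithBot ℕ) ≤ (X ^ nn k * QQ k).degree := by
        rw [degree_mul, degree_X_pow, degree_eq_natDegree ih.ne_zero]
        exact_mod_cast Nat.le_add_right _ _
      exact (h1.trans_lt h2).trans_le h3

lemma norm_sq_step (a : ℝ) (p q x : ℂ) (hx : ‖x‖ ≤ 1) :
    ‖p + a * (x * q)‖ ^ 2 + ‖x * q - a * p‖ ^ 2 ≤ (1 + a ^ 2) * (‖p‖ ^ 2 + ‖q‖ ^ 2) := by
  have h1 : ‖p + a * (x * q)‖ ^ 2 + ‖x * q - a * p‖ ^ 2 = (1 + a ^ 2) * (‖p‖ ^ 2 + ‖x * q‖ ^ 2) := by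
    rw [← Complex.normSq_eq_norm_sq, ← Complex.normSq_eq_norm_sq, ← Complex.normSq_eq_norm_sq,
      ← Complex.normSq_eq_norm_sq]
    simp only [Complex.normSq_apply, Complex.add_re, Complex.add_im, Complex.sub_re,
      Complex.sub_im, Complex.mul_re, Complex.mul_im, Complex.ofReal_re, Complex.ofReal_im]
    ring
  rw [h1]
  have h2 : ‖x * q‖ ≤ ‖q‖ := by
    rw [norm_mul]
    calc ‖x‖ * ‖q‖ ≤ 1 * ‖q‖ := by gcongr
      _ = ‖q‖ := one_mul _
  gcongr

lemma sum_sq_le (k : ℕ) : ∑ j ∈ Finset.range (k + 1), ak j ^ 2 ≤ 2 - ak k := by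
  induction k with
  | zero => simp [ak]; norm_num
  | succ k ih =>
    rw [Finset.sum_range_succ]
    have hk : (0 : ℝ) ≤ k := Nat.cast_nonneg k
    have h2 : ak (k + 1) ^ 2 ≤ ak k - ak (k + 1) := by
      unfold ak
      push_cast
      rw [div_pow, div_sub_div _ _ (by positivity) (by positivity),
        div_le_div_iff₀ (by positivity) (by positivity)]
      ring_nf
      nlinarith
    linarith

lemma sum_sq_le' (k : ℕ) : ∑ j ∈ Finset.range k, ak j ^ 2 ≤ 2 := by
  cases k with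
  | zero => simp
  | succ k => exact (sum_sq_le k).trans (by linarith [ak_pos k])

lemma norm_sq_le_exp (k : ℕ) (z : ℂ) (hz : ‖z‖ ≤ 1) :
    ‖(PP k).eval z‖ ^ 2 + ‖(QQ k).eval z‖ ^ 2 ≤ Real.exp (∑ j ∈ Finset.range k, ak j ^ 2) := by
  induction k with
  | zero => simp [PP_zero, QQ_zero]
  | succ k ih =>
    rw [PP_succ, QQ_succ, Finset.sum_range_succ, Real.exp_add]
    simp only [eval_add, eval_sub, eval_mul, eval_C, eval_pow, eval_X]
    refine (norm_sq_step (ak k) _ _ (z ^ nn k) ?_).trans ?_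
    · rw [norm_pow]; exact pow_le_one₀ (norm_nonneg _) hz
    · have h1 : 1 + ak k ^ 2 ≤ Real.exp (ak k ^ 2) := by
        have := Real.add_one_le_exp (ak k ^ 2)
        linarith
      rw [mul_comm]
      have := ak_pos k
      gcongr

lemma norm_sq_le_nine (k : ℕ) (z : ℂ) (hz : ‖z‖ ≤ 1) :
    ‖(PP k).eval z‖ ^ 2 + ‖(QQ k).eval z‖ ^ 2 ≤ 3 ^ 2 := by
  refine (norm_sq_le_exp k z hz).trans ?_
  have h1 : Real.exp (∑ j ∈ Finset.range k, ak j ^ 2) ≤ Real.exp 2 :=
    Real.exp_le_exp.mpr (sum_sq_le' k)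
  have h2 : Real.exp 2 = Real.exp 1 ^ 2 := by
    rw [← Real.exp_nat_mul]; norm_num
  have h3 := Real.exp_one_lt_d9
  have h4 : Real.exp 1 ^ 2 ≤ 3 ^ 2 := by
    have := Real.exp_pos 1
    gcongr
    linarith
  linarith

lemma PP_norm (k : ℕ) (z : ℂ) (hz : ‖z‖ ≤ 1) : ‖(PP k).eval z‖ ≤ 3 := by
  have h := norm_sq_le_nine k z hz
  have h2 : ‖(PP k).eval z‖ ^ 2 ≤ 3 ^ 2 := by nlinarith [sq_nonneg ‖(QQ k).eval z‖]
  exact abs_le_of_sq_le_sq' h2 (by norm_num) |>.2

lemma QQ_norm (k : ℕ) (z : ℂ) (hz : ‖z‖ ≤ 1) : ‖(QQ k).eval z‖ ≤ 3 := by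
  have h := norm_sq_le_nine k z hz
  have h2 : ‖(QQ k).eval z‖ ^ 2 ≤ 3 ^ 2 := by nlinarith [sq_nonneg ‖(PP k).eval z‖]
  exact abs_le_of_sq_le_sq' h2 (by norm_num) |>.2

/-- the terms of the series -/
def term (k : ℕ) (z : ℂ) : ℂ := (ak k : ℂ) * (z ^ nn k * (QQ k).eval z)

lemma sum_term (k : ℕ) (z : ℂ) : ∑ j ∈ Finset.range k, term j z = (PP k).eval z := by
  induction k with
  | zero => simp [PP_zero]
  | succ k ih =>
    rw [Finset.sum_range_succ, ih, PP_succ]
    simp [term]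

/-- the radii -/
def rr (k : ℕ) : ℝ := 1 - 1 / (8 * (nn k : ℝ))

lemma rr_lt_one (k : ℕ) : rr k < 1 := by
  unfold rr
  have := nn_pos k
  have : 0 < 1 / (8 * (nn k : ℝ)) := by positivity
  linarith

lemma rr_mono {i j : ℕ} (h : i ≤ j) : rr i ≤ rr j := by
  unfold rr
  have h1 := nn_pos i
  have h2 : (nn i : ℝ) ≤ nn j := by exact_mod_cast nn_mono.monotone h
  have : 1 / (8 * (nn j : ℝ)) ≤ 1 / (8 * (nn i : ℝ)) := by
    apply one_div_le_one_div_of_le <;> linarith
  linarith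

lemma rr_pos (k : ℕ) : 0 < rr k := by
  unfold rr
  have h : (4 : ℝ) ≤ nn k := by exact_mod_cast nn_four k
  have : 1 / (8 * (nn k : ℝ)) ≤ 1 / 32 := by
    apply one_div_le_one_div_of_le <;> linarith
  linarith

lemma term_norm (i j : ℕ) (hij : i < j) (z : ℂ) (hz : ‖z‖ ≤ rr i) :
    ‖term j z‖ ≤ del * ak i * (1 / 2) ^ j / 16 := by
  obtain ⟨l, rfl⟩ : ∃ l, j = l + 1 := ⟨j - 1, by omega⟩
  have hil : i ≤ l := by omega
  have hz1 : ‖z‖ ≤ 1 := hz.trans (rr_lt_one i).le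
  have hzl : ‖z‖ ≤ rr l := hz.trans (rr_mono hil)
  unfold term
  rw [norm_mul, norm_mul, norm_pow, Complex.norm_real, Real.norm_eq_abs,
    abs_of_pos (ak_pos _)]
  calc ak (l + 1) * (‖z‖ ^ nn (l + 1) * ‖(QQ (l + 1)).eval z‖)
      ≤ 1 * ((rr l) ^ nn (l + 1) * 3) := by
        have := rr_pos l
        gcongr
        · exact ak_le_one _
        · exact QQ_norm _ z hz1
    _ = 3 * (1 - 1 / (8 * (nn l : ℝ))) ^ (nn (l + 1)) := by rw [rr]; ring
    _ ≤ del * ak (l + 1) * (1 / 2) ^ (l + 1) / 16 := nn_tail l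
    _ ≤ del * ak i * (1 / 2) ^ (l + 1) / 16 := by
        have := del_pos
        gcongr
        exact ak_anti (by omega)

lemma half_pow_le (j m : ℕ) : (1 / 2 : ℝ) ^ (j + m) ≤ (1 / 2) ^ j :=
  pow_le_pow_of_le_one (by norm_num) (by norm_num) (by omega)

lemma tail_le (i j : ℕ) : del * ak i * (1 / 2) ^ (j + (i + 1)) / 16 ≤ (1 / 2) ^ j := by
  have h1 := del_le
  have h2 := del_pos
  have h3 := ak_le_one i
  have h4 := ak_pos i
  have h5 := half_pow_le j (i + 1)
  have h6 : (0 : ℝ) < (1 / 2) ^ (j + (i + 1)) := by positivity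
  have h7 : del * ak i ≤ 1 := by nlinarith
  have h8 : del * ak i * (1 / 2) ^ (j + (i + 1)) ≤ 1 * (1 / 2) ^ (j + (i + 1)) := by gcongr
  linarith

lemma exists_rr (z : ℂ) (hz : ‖z‖ < 1) : ∃ i, ‖z‖ < rr i := by
  have h : Tendsto rr atTop (𝓝 1) := by
    have h1 : Tendsto (fun k => (nn k : ℝ)) atTop atTop :=
      tendsto_natCast_atTop_atTop.comp nn_mono.tendsto_atTop
    have h2 : Tendsto (fun k => 1 - 1 / (8 * (nn k : ℝ))) atTop (𝓝 (1 - 0)) := by
      apply Tendsto.const_sub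
      apply Tendsto.div_atTop tendsto_const_nhds
      exact Tendsto.const_mul_atTop (by norm_num) h1
    rw [sub_zero] at h2
    exact h2
  exact (h.eventually_const_lt hz).exists

/-- the bounded holomorphic function -/
def hh (z : ℂ) : ℂ := ∑' k, term k z

lemma summable_term (z : ℂ) (hz : ‖z‖ < 1) : Summable fun k => term k z := by
  obtain ⟨i, hi⟩ := exists_rr z hz
  rw [← summable_nat_add_iff (i + 1)]
  apply Summable.of_norm_bounded (g := fun j => (1 / 2 : ℝ) ^ j)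
    (summable_geometric_of_lt_one (by norm_num) (by norm_num))
  intro j
  exact (term_norm i (j + (i + 1)) (by omega) z hi.le).trans (tail_le i j)

lemma hh_sub (i : ℕ) (z : ℂ) (hz : ‖z‖ < 1) :
    hh z - (PP (i + 1)).eval z = ∑' j, term (j + (i + 1)) z := by
  rw [hh, ← sum_term, ← (summable_term z hz).sum_add_tsum_nat_add (i + 1)]
  ring

lemma hh_sub_norm (i : ℕ) (z : ℂ) (hz : ‖z‖ ≤ rr i) :
    ‖hh z - (PP (i + 1)).eval z‖ ≤ del * ak i / 8 := by
  rw [hh_sub i z (hz.trans_lt (rr_lt_one i))]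
  have hg : HasSum (fun j => (del * ak i / 16) * (1 / 2 : ℝ) ^ j) ((del * ak i / 16) * 2) :=
    HasSum.mul_left _ hasSum_geometric_two
  refine (tsum_of_norm_bounded hg ?_).trans (by linarith)
  intro j
  refine (term_norm i (j + (i + 1)) (by omega) z hz).trans ?_
  have h2 := del_pos
  have h4 := ak_pos i
  have h5 := half_pow_le j (i + 1)
  calc del * ak i * (1 / 2) ^ (j + (i + 1)) / 16
      = (del * ak i / 16) * (1 / 2) ^ (j + (i + 1)) := by ring
    _ ≤ (del * ak i / 16) * (1 / 2 : ℝ) ^ j := by gcongr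

lemma hh_norm (z : ℂ) (hz : ‖z‖ < 1) : ‖hh z‖ ≤ 3 := by
  have h := (summable_term z hz).hasSum.tendsto_sum_nat
  apply le_of_tendsto h.norm
  filter_upwards with k
  rw [sum_term]
  exact PP_norm k z hz.le

lemma hh_diff_ball (i : ℕ) : DifferentiableOn ℂ hh (Metric.ball 0 (rr i)) := by
  have h1 : DifferentiableOn ℂ (fun z => ∑' j, term (j + (i + 1)) z) (Metric.ball 0 (rr i)) := by
    apply Complex.differentiableOn_tsum_of_summable_norm (u := fun j => (1 / 2 : ℝ) ^ j)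
      (summable_geometric_of_lt_one (by norm_num) (by norm_num))
    · intro j
      unfold term
      apply Differentiable.differentiableOn
      fun_prop
    · exact Metric.isOpen_ball
    · intro j w hw
      have hw' : ‖w‖ ≤ rr i := by simpa using (mem_ball_zero_iff.mp hw).le
      exact (term_norm i (j + (i + 1)) (by omega) w hw').trans (tail_le i j)
  have h2 : DifferentiableOn ℂ (fun z => (PP (i + 1)).eval z + ∑' j, term (j + (i + 1)) z)
      (Metric.ball 0 (rr i)) := by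
    apply DifferentiableOn.add _ h1
    apply Differentiable.differentiableOn
    fun_prop
  apply h2.congr
  intro z hz
  have := hh_sub i z ((mem_ball_zero_iff.mp hz).trans (rr_lt_one i))
  rw [← this]
  ring

lemma hh_diffAt (z : ℂ) (hz : ‖z‖ < 1) : DifferentiableAt ℂ hh z := by
  obtain ⟨i, hi⟩ := exists_rr z hz
  exact (hh_diff_ball i).differentiableAt (Metric.isOpen_ball.mem_nhds (by simpa using hi))

lemma hh_diff : DifferentiableOn ℂ hh (Metric.ball 0 1) := fun z hz =>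
  (hh_diffAt z (by simpa using hz)).differentiableWithinAt

/-- main term of the derivative -/
lemma deriv_hh_sub (i : ℕ) (z : ℂ) (hz : ‖z‖ ≤ 1 - 1 / (4 * (nn i : ℝ))) :
    ‖deriv hh z - ak i * nn i * (z ^ (nn i - 1) * (QQ i).eval z)‖ ≤ 3 * del * ak i * nn i := by
  have hn := nn_pos i
  have hz0 : 0 < 1 / (8 * (nn i : ℝ)) := by positivity
  have e1 : 1 / (4 * (nn i : ℝ)) = 1 / (8 * (nn i : ℝ)) + 1 / (8 * (nn i : ℝ)) := by
    field_simp; norm_num
  have hz1 : ‖z‖ < 1 := by linarith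
  -- the tail
  set T : ℂ → ℂ := fun z => hh z - (PP (i + 1)).eval z with hT
  have hTd : DifferentiableOn ℂ T (Metric.ball 0 1) := by
    apply hh_diff.sub
    apply Differentiable.differentiableOn
    fun_prop
  have hsub : Metric.closedBall z (1 / (8 * (nn i : ℝ))) ⊆ Metric.closedBall 0 (rr i) := by
    intro w hw
    rw [mem_closedBall_zero_iff]
    have h1 : ‖w - z‖ ≤ 1 / (8 * (nn i : ℝ)) := by simpa [dist_eq_norm] using hw
    have h2 : ‖w‖ ≤ ‖w - z‖ + ‖z‖ := by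
      calc ‖w‖ = ‖(w - z) + z‖ := by ring_nf
        _ ≤ _ := norm_add_le _ _
    unfold rr
    linarith
  have hsub2 : Metric.closedBall (0 : ℂ) (rr i) ⊆ Metric.ball 0 1 :=
    Metric.closedBall_subset_ball (rr_lt_one i)
  have hTderiv : ‖deriv T z‖ ≤ del * ak i * nn i := by
    have h := Complex.norm_deriv_le_of_forall_mem_sphere_norm_le (c := z) (f := T)
      (R := 1 / (8 * (nn i : ℝ))) (C := del * ak i / 8) hz0
      ((hTd.mono (hsub.trans hsub2)).diffContOnCl_ball (le_refl _))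
      (fun w hw => hh_sub_norm i w (by
        simpa using hsub (Metric.sphere_subset_closedBall hw)))
    refine h.trans (le_of_eq ?_)
    field_simp
  have hderiv : deriv hh z = deriv T z + (PP (i + 1)).derivative.eval z := by
    have h1 : HasDerivAt T (deriv T z) z :=
      ((hTd.differentiableAt (Metric.isOpen_ball.mem_nhds (by simpa using hz1)))).hasDerivAt
    have h2 : HasDerivAt (fun z => (PP (i + 1)).eval z) ((PP (i + 1)).derivative.eval z) z :=
      (PP (i + 1)).hasDerivAt z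
    have h3 := h1.add h2
    have h4 : (T + fun z => (PP (i + 1)).eval z) = hh := by
      funext w; simp [hT]
    rw [h4] at h3
    exact h3.deriv
  have hPP : (PP (i + 1)).derivative.eval z = (PP i).derivative.eval z +
      ak i * nn i * (z ^ (nn i - 1) * (QQ i).eval z) +
      ak i * (z ^ nn i * (QQ i).derivative.eval z) := by
    rw [PP_succ]
    simp only [derivative_add, derivative_mul, derivative_C, derivative_X_pow, eval_add,
      eval_mul, eval_C, eval_pow, eval_X, zero_mul, zero_add]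
    ring
  rw [hderiv, hPP]
  have e : deriv T z + ((PP i).derivative.eval z +
      ak i * nn i * (z ^ (nn i - 1) * (QQ i).eval z) +
      ak i * (z ^ nn i * (QQ i).derivative.eval z)) -
      ak i * nn i * (z ^ (nn i - 1) * (QQ i).eval z) =
      deriv T z + (PP i).derivative.eval z + ak i * (z ^ nn i * (QQ i).derivative.eval z) := by
    ring
  rw [e]
  have h5 : ‖(ak i : ℂ) * (z ^ nn i * (QQ i).derivative.eval z)‖ ≤ del * ak i * nn i := by
    rw [norm_mul, norm_mul, norm_pow, Complex.norm_real, Real.norm_eq_abs,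
      abs_of_pos (ak_pos _)]
    have h6 := QQ_deriv i z hz1.le
    have h7 : ‖z‖ ^ nn i ≤ 1 := pow_le_one₀ (norm_nonneg _) hz1.le
    have h8 := ak_pos i
    calc ak i * (‖z‖ ^ nn i * ‖(QQ i).derivative.eval z‖)
        ≤ ak i * (1 * (del * nn i)) := by gcongr
      _ = _ := by ring
  calc _ ≤ ‖deriv T z‖ + ‖(PP i).derivative.eval z‖ +
        ‖(ak i : ℂ) * (z ^ nn i * (QQ i).derivative.eval z)‖ := norm_add₃_le
    _ ≤ del * ak i * nn i + del * ak i * nn i + del * ak i * nn i := by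
        gcongr
        exact PP_deriv i z hz1.le
    _ = _ := by ring

lemma deriv_hh_norm (i : ℕ) (z : ℂ) (hz : ‖z‖ ≤ 1 - 1 / (4 * (nn i : ℝ))) :
    ‖deriv hh z‖ ≤ 4 * (ak i * nn i) := by
  have hn := nn_pos i
  have hz0 : 0 < 1 / (4 * (nn i : ℝ)) := by positivity
  have hz1 : ‖z‖ < 1 := by linarith
  have h1 := deriv_hh_sub i z hz
  have h2 : ‖(ak i : ℂ) * nn i * (z ^ (nn i - 1) * (QQ i).eval z)‖ ≤ 3 * (ak i * nn i) := by
    rw [norm_mul, norm_mul, norm_mul, norm_pow, Complex.norm_real, Real.norm_eq_abs,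
      abs_of_pos (ak_pos _), Complex.norm_natCast]
    have h6 := QQ_norm i z hz1.le
    have h7 : ‖z‖ ^ (nn i - 1) ≤ 1 := pow_le_one₀ (norm_nonneg _) hz1.le
    have h8 := ak_pos i
    calc ak i * nn i * (‖z‖ ^ (nn i - 1) * ‖(QQ i).eval z‖)
        ≤ ak i * nn i * (1 * 3) := by gcongr
      _ = _ := by ring
  have h3 : ‖deriv hh z‖ ≤ ‖deriv hh z - ak i * nn i * (z ^ (nn i - 1) * (QQ i).eval z)‖ +
      ‖(ak i : ℂ) * nn i * (z ^ (nn i - 1) * (QQ i).eval z)‖ := by
    calc ‖deriv hh z‖ = ‖(deriv hh z - ak i * nn i * (z ^ (nn i - 1) * (QQ i).eval z)) +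
        ((ak i : ℂ) * nn i * (z ^ (nn i - 1) * (QQ i).eval z))‖ := by ring_nf
      _ ≤ _ := norm_add_le _ _
  have h4 := del_le
  have h5 : 0 < ak i * nn i := mul_pos (ak_pos i) hn
  nlinarith

end

end Pool.Agent.Helper31.Dbar
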