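import Mathlib

/-!
# Radial integrals in the plane
-/

namespace Pool.Agent.Helper31.Dbar

open MeasureTheory Filter Topology
open scoped ContDiff

noncomputable section

/-- the standard bump centred at `3/2` -/
def bump0 : ContDiffBump (3 / 2 : ℝ) where
  rIn := 1 / 4
  rOut := 1 / 2
  rIn_pos := by norm_num
  rIn_lt_rOut := by norm_num

/-- a smooth function supported in `[1,2]` and equal to one on `[5/4,7/4]` -/
def rho : ℝ → ℝ := bump0

lemma rho_smooth : ContDiff ℝ ∞ rho := bump0.contDiff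

lemma rho_nonneg (t : ℝ) : 0 ≤ rho t := bump0.nonneg

lemma rho_le_one (t : ℝ) : rho t ≤ 1 := bump0.le_one

lemma rho_one {t : ℝ} (h1 : 5 / 4 ≤ t) (h2 : t ≤ 7 / 4) : rho t = 1 := by
  apply bump0.one_of_mem_closedBall
  rw [Metric.mem_closedBall, Real.dist_eq, abs_le]
  change -(1 / 4) ≤ t - 3 / 2 ∧ t - 3 / 2 ≤ 1 / 4
  constructor <;> linarith

lemma rho_tsupport : tsupport rho = Set.Icc 1 2 := by
  have h : tsupport rho = Metric.closedBall (3 / 2 : ℝ) (1 / 2) := bump0.tsupport_eq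
  rw [h, Real.closedBall_eq_Icc]
  norm_num

/-- the derivatives of `rho` -/
def rhoD (i : ℕ) : ℝ → ℝ := iteratedDeriv i rho

lemma rhoD_zero : rhoD 0 = rho := iteratedDeriv_zero

lemma rhoD_hasDeriv (i : ℕ) (t : ℝ) : HasDerivAt (rhoD i) (rhoD (i + 1) t) t := by
  have h : Differentiable ℝ (rhoD i) :=
    rho_smooth.differentiable_iteratedDeriv i (by exact_mod_cast WithTop.coe_lt_top _)
  have h2 : rhoD (i + 1) = deriv (rhoD i) := by
    unfold rhoD; rw [iteratedDeriv_succ]
  rw [h2]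
  exact (h t).hasDerivAt

lemma rhoD_smooth (i : ℕ) : ContDiff ℝ ∞ (rhoD i) := by
  unfold rhoD
  rw [iteratedDeriv_eq_iterate]
  exact rho_smooth.iterate_deriv i

lemma rhoD_tsupport (i : ℕ) : tsupport (rhoD i) ⊆ Set.Icc 1 2 := by
  induction i with
  | zero => rw [rhoD_zero, rho_tsupport]
  | succ i ih =>
    have : rhoD (i + 1) = deriv (rhoD i) := by
      unfold rhoD; rw [iteratedDeriv_succ]
    rw [this]
    exact (tsupport_deriv_subset (𝕜 := ℝ) (f := rhoD i)).trans ih

lemma rhoD_eq_zero (i : ℕ) {t : ℝ} (h : t < 1 ∨ 2 < t) : rhoD i t = 0 := by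
  apply image_eq_zero_of_notMem_tsupport
  intro h2
  have := rhoD_tsupport i h2
  rw [Set.mem_Icc] at this
  rcases h with h | h <;> linarith [this.1, this.2]

lemma rhoD_bound : ∃ M : ℝ, 1 ≤ M ∧ ∀ i < 4, ∀ t, |rhoD i t| ≤ M := by
  have h : ∀ i, ∃ M : ℝ, ∀ t, |rhoD i t| ≤ M := by
    intro i
    have hc : HasCompactSupport (rhoD i) :=
      HasCompactSupport.of_support_subset_isCompact isCompact_Icc
        ((subset_tsupport _).trans (rhoD_tsupport i))
    obtain ⟨M, hM⟩ := (rhoD_smooth i).continuous.bounded_above_of_compact_support hc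
    exact ⟨M, hM⟩
  choose M hM using h
  refine ⟨1 + ∑ i ∈ Finset.range 4, |M i|, ?_, ?_⟩
  · have : 0 ≤ ∑ i ∈ Finset.range 4, |M i| := Finset.sum_nonneg fun i _ => abs_nonneg _
    linarith
  · intro i hi t
    have h1 : |M i| ≤ ∑ i ∈ Finset.range 4, |M i| :=
      Finset.single_le_sum (f := fun i => |M i|) (fun i _ => abs_nonneg _)
        (Finset.mem_range.mpr hi)
    have h2 := hM i t
    have h3 := le_abs_self (M i)
    linarith

/-- the rescaled distance to the unit circle -/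
def tt (n : ℝ) (z : ℂ) : ℝ := n * (1 - ‖z‖ ^ 2)

lemma tt_cont (n : ℝ) : Continuous (tt n) := by unfold tt; fun_prop

/-- annuli -/
def ann (n a b : ℝ) : Set ℂ := {z | a ≤ tt n z ∧ tt n z ≤ b}

lemma ann_meas (n a b : ℝ) : MeasurableSet (ann n a b) := by
  have : ann n a b = (tt n) ⁻¹' (Set.Icc a b) := rfl
  rw [this]
  exact (tt_cont n).measurable measurableSet_Icc

lemma ann_eq {n a b : ℝ} (hn : 0 < n) (hab : a ≤ b) (hb : b ≤ n) :
    ann n a b = Metric.closedBall 0 (√(1 - a / n)) \ Metric.ball 0 (√(1 - b / n)) := by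
  have h1 : a / n ≤ 1 := by rw [div_le_one hn]; linarith
  have h2 : b / n ≤ 1 := by rw [div_le_one hn]; linarith
  ext z
  simp only [ann, tt, Set.mem_ofPred_eq, Set.mem_sdiff, Metric.mem_closedBall, dist_zero_right,
    Metric.mem_ball, not_lt]
  rw [Real.le_sqrt (norm_nonneg _) (by linarith), Real.sqrt_le_left (norm_nonneg _)]
  have e1 : (‖z‖ ^ 2 ≤ 1 - a / n) ↔ (a ≤ n * (1 - ‖z‖ ^ 2)) := by
    rw [mul_comm, ← div_le_iff₀ hn]
    constructor <;> intro h <;> linarith
  have e2 : (1 - b / n ≤ ‖z‖ ^ 2) ↔ (n * (1 - ‖z‖ ^ 2) ≤ b) := by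
    rw [mul_comm n, ← le_div_iff₀ hn]
    constructor <;> intro h <;> linarith
  rw [e1, e2]

lemma ann_volume {n a b : ℝ} (hn : 0 < n) (hab : a ≤ b) (hb : b ≤ n) :
    volume.real (ann n a b) = Real.pi * (b - a) / n := by
  have h1 : a / n ≤ 1 := by rw [div_le_one hn]; linarith
  have h2 : b / n ≤ 1 := by rw [div_le_one hn]; linarith
  have h3 : a / n ≤ b / n := by gcongr
  rw [ann_eq hn hab hb, measureReal_sdiff (h₁ := measure_closedBall_lt_top.ne)]
  · have e : ∀ x : ℝ, 0 ≤ x → volume.real (Metric.closedBall (0 : ℂ) (√x)) = Real.pi * x := by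
      intro x hx
      rw [Measure.real, Complex.volume_closedBall]
      simp [Real.sq_sqrt hx, mul_comm]
    have e' : ∀ x : ℝ, 0 ≤ x → volume.real (Metric.ball (0 : ℂ) (√x)) = Real.pi * x := by
      intro x hx
      rw [Measure.real, Complex.volume_ball]
      simp [Real.sq_sqrt hx, mul_comm]
    rw [e _ (by linarith), e' _ (by linarith)]
    field_simp
    ring
  · exact Metric.ball_subset_closedBall.trans (Metric.closedBall_subset_closedBall
      (Real.sqrt_le_sqrt (by linarith)))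
  · exact measurableSet_ball

/-- rotation invariance -/
lemma integral_rot {E : Type*} [NormedAddCommGroup E] [NormedSpace ℝ E] (a : Circle) (f : ℂ → E) :
    ∫ z : ℂ, f (a * z) = ∫ z : ℂ, f z := by
  have h := (rotation a).measurePreserving.integral_comp
    (rotation a).toHomeomorph.measurableEmbedding f
  simpa [rotation_apply] using h

/-- orthogonality of monomials with different exponents against radial weights -/
lemma integral_radial_zero (g : ℝ → ℂ) {i j : ℕ} (hij : i ≠ j) :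
    ∫ z : ℂ, g ‖z‖ * (z ^ i * (starRingEnd ℂ z) ^ j) = 0 := by
  have hij' : ((i : ℝ) - j) ≠ 0 := by
    rw [sub_ne_zero]; exact_mod_cast hij
  set a : Circle := Circle.exp (Real.pi / ((i : ℝ) - j)) with ha
  have h1 : (a : ℂ) ^ i * (starRingEnd ℂ (a : ℂ)) ^ j = -1 := by
    have e1 : (starRingEnd ℂ (a : ℂ)) = Complex.exp (-(Real.pi / ((i : ℝ) - j) : ℝ) * Complex.I) := by
      rw [ha, Circle.coe_exp, ← Complex.exp_conj]
      congr 1
      simp
    rw [e1, ha, Circle.coe_exp, ← Complex.exp_nat_mul, ← Complex.exp_nat_mul, ← Complex.exp_add]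
    have e2 : (i : ℂ) * (((Real.pi / ((i : ℝ) - j) : ℝ) : ℂ) * Complex.I) +
        (j : ℂ) * (-((Real.pi / ((i : ℝ) - j) : ℝ) : ℂ) * Complex.I) = Real.pi * Complex.I := by
      have hc : ((i : ℂ) - j) ≠ 0 := by exact_mod_cast hij'
      push_cast
      field_simp
      ring
    rw [e2, Complex.exp_pi_mul_I]
  have h2 := integral_rot a (fun z => g ‖z‖ * (z ^ i * (starRingEnd ℂ z) ^ j))
  have h3 : ∀ z : ℂ, g ‖(a : ℂ) * z‖ * (((a : ℂ) * z) ^ i * (starRingEnd ℂ ((a : ℂ) * z)) ^ j) =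
      -(g ‖z‖ * (z ^ i * (starRingEnd ℂ z) ^ j)) := by
    intro z
    rw [norm_mul, Circle.norm_coe, one_mul, map_mul, mul_pow, mul_pow]
    calc g ‖z‖ * ((a : ℂ) ^ i * z ^ i * ((starRingEnd ℂ (a : ℂ)) ^ j * (starRingEnd ℂ z) ^ j)) =
        ((a : ℂ) ^ i * (starRingEnd ℂ (a : ℂ)) ^ j) * (g ‖z‖ * (z ^ i * (starRingEnd ℂ z) ^ j)) := by
          ring
      _ = _ := by rw [h1]; ring
  simp only [h3, integral_neg] at h2
  exact self_eq_neg.mp h2.symm

end

end Pool.Agent.Helper31.Dbar
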