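import Mathlib
import Pool.Agent.Helper31.Dbar.RS
import Pool.Agent.Helper31.Dbar.Radial

/-!
# Lower bound for the derivative in the mean
-/

namespace Pool.Agent.Helper31.Dbar

open MeasureTheory Filter Topology Polynomial
open scoped ContDiff

noncomputable section

lemma tt_lt_one {n : ℝ} (hn : 0 < n) {z : ℂ} (hz : 1 ≤ ‖z‖) : tt n z < 1 := by
  unfold tt
  have : 1 ≤ ‖z‖ ^ 2 := one_le_pow₀ hz
  nlinarith

lemma norm_of_tt {n : ℝ} (hn : 1 ≤ n) {z : ℂ} (hz : 1 ≤ tt n z) :
    ‖z‖ ≤ 1 - 1 / (2 * n) := by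
  unfold tt at hz
  have h0 : 0 < n := by linarith
  have h1 : 1 / n ≤ 1 - ‖z‖ ^ 2 := by
    rw [div_le_iff₀ h0]; linarith
  have h3 : 1 / n ≤ 1 := by rw [div_le_one h0]; exact hn
  have h2 : ‖z‖ ^ 2 ≤ (1 - 1 / (2 * n)) ^ 2 := by
    have e : (1 - 1 / (2 * n)) ^ 2 = 1 - 1 / n + (1 / (2 * n)) ^ 2 := by field_simp; ring
    rw [e]
    nlinarith [sq_nonneg (1 / (2 * n))]
  have e : 1 / (2 * n) = (1 / n) / 2 := by field_simp
  have h4 : 0 ≤ 1 - 1 / (2 * n) := by rw [e]; linarith
  exact abs_le_of_sq_le_sq' h2 h4 |>.2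

lemma norm_of_tt' {n : ℝ} (hn : 1 ≤ n) {z : ℂ} (hz : 1 ≤ tt n z) :
    ‖z‖ ≤ 1 - 1 / (4 * n) := by
  have h := norm_of_tt hn hz
  have : 1 / (4 * n) ≤ 1 / (2 * n) := by
    apply one_div_le_one_div_of_le <;> linarith
  linarith

/-- cutting off a function which is continuous in the unit disc -/
lemma cut_cont {E : Type*} [NormedAddCommGroup E] [NormedSpace ℝ E] (i : ℕ) {n : ℝ} (hn : 0 < n)
    {g : ℂ → E} (hg : ContinuousOn g (Metric.ball 0 1)) :
    Continuous fun z => rhoD i (tt n z) • g z := by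
  rw [continuous_iff_continuousAt]
  intro z
  by_cases hz : ‖z‖ < 1
  · have h1 : ContinuousAt g z := hg.continuousAt (Metric.isOpen_ball.mem_nhds (by simpa using hz))
    exact (((rhoD_smooth i).continuous.comp (tt_cont n)).continuousAt).smul h1
  · have h2 : {w : ℂ | tt n w < 1} ∈ 𝓝 z :=
      (isOpen_lt (tt_cont n) continuous_const).mem_nhds (tt_lt_one hn (not_lt.mp hz))
    have h3 : (fun _ => (0 : E)) =ᶠ[𝓝 z] fun z => rhoD i (tt n z) • g z := by
      filter_upwards [h2] with w hw
      have hw' : tt n w < 1 := hw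
      rw [rhoD_eq_zero i (Or.inl hw'), zero_smul]
    exact continuousAt_const.congr h3

lemma cut_compact {E : Type*} [NormedAddCommGroup E] [NormedSpace ℝ E] (i : ℕ) {n : ℝ} (hn : 0 < n)
    (g : ℂ → E) : HasCompactSupport fun z => rhoD i (tt n z) • g z := by
  apply HasCompactSupport.of_support_subset_isCompact (isCompact_closedBall (0 : ℂ) 1)
  intro z hz
  rw [mem_closedBall_zero_iff]
  by_contra hcon
  apply hz
  simp only
  rw [rhoD_eq_zero i (Or.inl (tt_lt_one hn (not_le.mp hcon).le)), zero_smul]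

lemma cut_int {E : Type*} [NormedAddCommGroup E] [NormedSpace ℝ E] (i : ℕ) {n : ℝ} (hn : 0 < n)
    {g : ℂ → E} (hg : ContinuousOn g (Metric.ball 0 1)) :
    Integrable fun z => rhoD i (tt n z) • g z :=
  (cut_cont i hn hg).integrable_of_hasCompactSupport (cut_compact i hn g)

lemma deriv_hh_cont : ContinuousOn (deriv hh) (Metric.ball 0 1) :=
  (hh_diff.deriv Metric.isOpen_ball).continuousOn

/-- the integral of `rho` over the annulus -/
lemma int_rho_le {n : ℝ} (hn : 2 ≤ n) : ∫ z : ℂ, rho (tt n z) ≤ Real.pi / n := by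
  have h0 : 0 < n := by linarith
  have h1 : ∫ z : ℂ, rho (tt n z) ≤ ∫ z : ℂ, (ann n 1 2).indicator (fun _ => (1 : ℝ)) z := by
    apply integral_mono
    · have := cut_int 0 h0 (g := fun _ => (1 : ℝ)) continuousOn_const
      simpa [rhoD_zero] using this
    · rw [integrable_indicator_iff (ann_meas _ _ _)]
      have hfin : volume (ann n 1 2) ≠ ⊤ := by
        rw [ann_eq h0 (by norm_num) hn]
        exact ((measure_mono Set.sdiff_subset).trans_lt measure_closedBall_lt_top).ne
      exact integrableOn_const hfin enorm_ne_top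
    · intro z
      simp only
      by_cases hz : z ∈ ann n 1 2
      · rw [Set.indicator_of_mem hz]; exact rho_le_one _
      · rw [Set.indicator_of_notMem hz]
        have : rho (tt n z) = 0 := by
          rw [← rhoD_zero]
          apply rhoD_eq_zero
          by_contra hcon
          push Not at hcon
          exact hz hcon
        rw [this]
  rw [integral_indicator_const _ (ann_meas _ _ _), ann_volume h0 (by norm_num) hn] at h1
  refine h1.trans (le_of_eq ?_)
  simp
  ring

lemma one_sub_ge_exp {x : ℝ} (h0 : 0 ≤ x) (h1 : x ≤ 1 / 2) : Real.exp (-(2 * x)) ≤ 1 - x := by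
  have h2 : 1 ≤ (1 - x) * Real.exp (2 * x) := by
    have h3 := Real.add_one_le_exp (2 * x)
    have h4 : 1 ≤ (1 - x) * (2 * x + 1) := by nlinarith
    exact h4.trans (by gcongr; linarith)
  rw [Real.exp_neg]
  rw [inv_le_iff_one_le_mul₀ (Real.exp_pos _)]
  exact h2

/-- the basic constant -/
def cc : ℝ := Real.exp (-8) / 4

lemma cc_pos : 0 < cc := by unfold cc; positivity

lemma three_del : 3 * del = cc := by unfold del cc; ring

lemma int_monomial_ge {n : ℝ} (hn : 4 ≤ n) {N : ℕ} (hN : (N : ℝ) ≤ 2 * n) :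
    2 * cc * (Real.pi / n) ≤ ∫ z : ℂ, rho (tt n z) * (‖z‖ ^ 2) ^ N := by
  have h0 : 0 < n := by linarith
  have hfin : volume (ann n (5 / 4) (7 / 4)) ≠ ⊤ := by
    rw [ann_eq h0 (by norm_num) (by linarith)]
    exact ((measure_mono Set.sdiff_subset).trans_lt measure_closedBall_lt_top).ne
  have h1 : ∫ z : ℂ, (ann n (5 / 4) (7 / 4)).indicator (fun _ => Real.exp (-8)) z ≤
      ∫ z : ℂ, rho (tt n z) * (‖z‖ ^ 2) ^ N := by
    apply integral_mono
    · rw [integrable_indicator_iff (ann_meas _ _ _)]
      exact integrableOn_const hfin enorm_ne_top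
    · have := cut_int 0 h0 (g := fun z => (‖z‖ ^ 2) ^ N) (by fun_prop)
      simpa [rhoD_zero] using this
    · intro z
      simp only
      by_cases hz : z ∈ ann n (5 / 4) (7 / 4)
      · rw [Set.indicator_of_mem hz, rho_one hz.1 hz.2, one_mul]
        have h2 : 1 - 2 / n ≤ ‖z‖ ^ 2 := by
          have h3 := hz.2
          unfold tt at h3
          have h4 : 1 - ‖z‖ ^ 2 ≤ 2 / n := by
            rw [le_div_iff₀ h0]; linarith
          linarith
        have h5 : 2 / n ≤ 1 / 2 := by
          rw [div_le_div_iff₀ h0 (by norm_num)]; linarith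
        have h6 : Real.exp (-(2 * (2 / n))) ≤ 1 - 2 / n := one_sub_ge_exp (by positivity) h5
        calc Real.exp (-8) ≤ Real.exp (N * (-(2 * (2 / n)))) := by
              apply Real.exp_le_exp.mpr
              have e : (N : ℝ) * (-(2 * (2 / n))) = -(4 * (N / n)) := by ring
              have h7 : (N : ℝ) / n ≤ 2 := by rw [div_le_iff₀ h0]; exact hN
              rw [e]; linarith
          _ = (Real.exp (-(2 * (2 / n)))) ^ N := by rw [Real.exp_nat_mul]
          _ ≤ (‖z‖ ^ 2) ^ N := by
              have := Real.exp_pos (-(2 * (2 / n)))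
              gcongr
              linarith
      · rw [Set.indicator_of_notMem hz]
        exact mul_nonneg (rho_nonneg _) (by positivity)
  rw [integral_indicator_const _ (ann_meas _ _ _), ann_volume h0 (by norm_num) (by linarith)] at h1
  refine le_trans (le_of_eq ?_) h1
  unfold cc
  simp
  ring

/-- extraction of the leading coefficient -/
lemma int_main (k : ℕ) :
    2 * cc * (Real.pi / nn k) ≤ ‖∫ z : ℂ, rho (tt (nn k) z) •
      (z ^ (nn k - 1) * (QQ k).eval z * (starRingEnd ℂ z) ^ (nn k - 1 + (QQ k).natDegree))‖ := by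
  have hn := nn_pos k
  have hn4 : (4 : ℝ) ≤ nn k := by exact_mod_cast nn_four k
  set n := nn k with hndef
  set d := (QQ k).natDegree with hd
  have hcoef : (QQ k).coeff d = 1 := (QQ_monic k).coeff_natDegree
  have e1 : ∀ z : ℂ, rho (tt n z) •
      (z ^ (n - 1) * (QQ k).eval z * (starRingEnd ℂ z) ^ (n - 1 + d)) =
      ∑ i ∈ Finset.range (d + 1), (QQ k).coeff i *
        ((rho (tt n z) : ℂ) * (z ^ (n - 1 + i) * (starRingEnd ℂ z) ^ (n - 1 + d))) := by
    intro z
    rw [eval_eq_sum_range, Finset.mul_sum, Finset.sum_mul, Finset.smul_sum]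
    apply Finset.sum_congr rfl
    intro i _
    rw [pow_add z, Complex.real_smul]
    ring
  have hint : ∀ i, Integrable fun z : ℂ =>
      ((rho (tt n z) : ℂ) * (z ^ (n - 1 + i) * (starRingEnd ℂ z) ^ (n - 1 + d))) := by
    intro i
    have := cut_int 0 hn (g := fun z : ℂ => z ^ (n - 1 + i) * (starRingEnd ℂ z) ^ (n - 1 + d))
      (by
        apply Continuous.continuousOn
        have := Complex.continuous_conj
        fun_prop)
    simpa [rhoD_zero] using this
  have e2 : ∫ z : ℂ, rho (tt n z) •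
      (z ^ (n - 1) * (QQ k).eval z * (starRingEnd ℂ z) ^ (n - 1 + d)) =
      ∫ z : ℂ, ((rho (tt n z) * (‖z‖ ^ 2) ^ (n - 1 + d) : ℝ) : ℂ) := by
    simp_rw [e1]
    rw [integral_finsetSum _ (fun i _ => (hint i).const_mul _)]
    rw [Finset.sum_eq_single d]
    · rw [hcoef]
      congr 1
      funext z
      rw [one_mul, ← mul_pow, Complex.mul_conj, Complex.normSq_eq_norm_sq]
      push_cast
      ring
    · intro i _ hi
      rw [integral_const_mul]
      have := integral_radial_zero (fun r => ((rho ((n : ℝ) * (1 - r ^ 2)) : ℝ) : ℂ))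
        (i := n - 1 + i) (j := n - 1 + d) (by omega)
      have e3 : ∀ z : ℂ, rho (tt n z) = rho ((n : ℝ) * (1 - ‖z‖ ^ 2)) := fun z => rfl
      simp_rw [e3]
      rw [this, mul_zero]
    · intro h
      exact absurd (Finset.mem_range.mpr (Nat.lt_succ_self d)) h
  rw [e2, integral_complex_ofReal, Complex.norm_real, Real.norm_eq_abs]
  refine le_trans ?_ (le_abs_self _)
  apply int_monomial_ge hn4
  have hd2 : d ≤ n := QQ_deg k
  have : n - 1 + d ≤ 2 * n := by omega
  exact_mod_cast this

lemma int_deriv_ge (k : ℕ) :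
    cc * (Real.pi / nn k) ≤ ∫ z : ℂ, rho (tt (nn k) z) * (‖deriv hh z‖ / (ak k * nn k)) := by
  have hn := nn_pos k
  have hn4 : (4 : ℝ) ≤ nn k := by exact_mod_cast nn_four k
  have ha := ak_pos k
  have han : 0 < ak k * nn k := mul_pos ha hn
  have hm := int_main k
  set n := nn k with hndef
  set d := (QQ k).natDegree with hd
  set s0 : ℂ → ℂ := fun z => z ^ (n - 1) * (QQ k).eval z * (starRingEnd ℂ z) ^ (n - 1 + d) with hs0
  set s : ℂ → ℂ := fun z => (deriv hh z / (ak k * n)) * (starRingEnd ℂ z) ^ (n - 1 + d) with hs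
  have hconj := Complex.continuous_conj
  have hs0c : ContinuousOn s0 (Metric.ball 0 1) := by
    apply Continuous.continuousOn
    fun_prop
  have hsc : ContinuousOn s (Metric.ball 0 1) := by
    apply ContinuousOn.mul
    · exact deriv_hh_cont.div_const _
    · apply Continuous.continuousOn
      fun_prop
  have hsub : ∀ z : ℂ, 1 ≤ tt n z → ‖s z - s0 z‖ ≤ cc := by
    intro z hz
    have hz1 := norm_of_tt' (by linarith : (1 : ℝ) ≤ n) hz
    have hz2 : ‖z‖ ≤ 1 := by
      have : 0 < 1 / (4 * (n : ℝ)) := by positivity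
      linarith
    have h1 := deriv_hh_sub k z hz1
    have e : s z - s0 z = ((deriv hh z - ak k * n * (z ^ (n - 1) * (QQ k).eval z)) / (ak k * n)) *
        (starRingEnd ℂ z) ^ (n - 1 + d) := by
      simp only [hs, hs0]
      have h1 : (ak k : ℂ) ≠ 0 := by exact_mod_cast ha.ne'
      have h2 : (n : ℂ) ≠ 0 := by exact_mod_cast hn.ne'
      field_simp
    rw [e, norm_mul, norm_pow, norm_div, RCLike.norm_conj]
    have e2 : ‖(ak k : ℂ) * n‖ = ak k * n := by
      rw [norm_mul, Complex.norm_real, Real.norm_eq_abs, abs_of_pos ha, Complex.norm_natCast]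
    rw [e2]
    calc _ ≤ (3 * del * ak k * n) / (ak k * n) * 1 := by
          have hdel := del_pos
          apply mul_le_mul
          · gcongr
          · exact pow_le_one₀ (norm_nonneg _) hz2
          · positivity
          · positivity
      _ = cc := by
          rw [← three_del]; field_simp
  have h1 : ‖∫ z : ℂ, rho (tt n z) • s z - rho (tt n z) • s0 z‖ ≤ cc * (Real.pi / n) := by
    calc _ ≤ ∫ z : ℂ, cc * rho (tt n z) := by
          apply norm_integral_le_of_norm_le
          · have := cut_int 0 hn (g := fun _ => (1 : ℝ)) continuousOn_const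
            simpa [rhoD_zero] using this.const_mul cc
          · apply Eventually.of_forall
            intro z
            rw [← smul_sub, norm_smul, Real.norm_eq_abs, abs_of_nonneg (rho_nonneg _), mul_comm]
            by_cases hz : 1 ≤ tt n z
            · exact mul_le_mul_of_nonneg_right (hsub z hz) (rho_nonneg _)
            · have : rho (tt n z) = 0 := by
                rw [← rhoD_zero]; exact rhoD_eq_zero 0 (Or.inl (not_le.mp hz))
              rw [this]; simp
      _ ≤ cc * (Real.pi / n) := by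
          rw [integral_const_mul]
          exact mul_le_mul_of_nonneg_left (int_rho_le (by linarith)) cc_pos.le
  have i1 : Integrable fun z : ℂ => rho (tt n z) • s z := by
    simpa [rhoD_zero] using cut_int 0 hn hsc
  have i0 : Integrable fun z : ℂ => rho (tt n z) • s0 z := by
    simpa [rhoD_zero] using cut_int 0 hn hs0c
  rw [integral_sub i1 i0] at h1
  have h2 : ‖∫ z : ℂ, rho (tt n z) • s0 z‖ - ‖∫ z : ℂ, rho (tt n z) • s z‖ ≤
      ‖(∫ z : ℂ, rho (tt n z) • s z) - ∫ z : ℂ, rho (tt n z) • s0 z‖ := by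
    rw [norm_sub_rev]; exact norm_sub_norm_le _ _
  have h3 : cc * (Real.pi / n) ≤ ‖∫ z : ℂ, rho (tt n z) • s z‖ := by
    have hm' : 2 * cc * (Real.pi / n) ≤ ‖∫ z : ℂ, rho (tt n z) • s0 z‖ := hm
    linarith
  refine h3.trans ?_
  apply norm_integral_le_of_norm_le
  · have := cut_int 0 hn (g := fun z => ‖deriv hh z‖ / (ak k * n))
      (deriv_hh_cont.norm.div_const _)
    simpa [rhoD_zero] using this
  · apply Eventually.of_forall
    intro z
    rw [norm_smul, Real.norm_eq_abs, abs_of_nonneg (rho_nonneg _)]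
    by_cases hz : 1 ≤ tt n z
    · apply mul_le_mul_of_nonneg_left _ (rho_nonneg _)
      have hz1 := norm_of_tt' (by linarith : (1 : ℝ) ≤ n) hz
      have hz2 : ‖z‖ ≤ 1 := by
        have : 0 < 1 / (4 * (n : ℝ)) := by positivity
        linarith
      simp only [hs]
      rw [norm_mul, norm_pow, norm_div, RCLike.norm_conj]
      have e2 : ‖(ak k : ℂ) * n‖ = ak k * n := by
        rw [norm_mul, Complex.norm_real, Real.norm_eq_abs, abs_of_pos ha, Complex.norm_natCast]
      rw [e2]
      calc _ ≤ ‖deriv hh z‖ / (ak k * n) * 1 := by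
            gcongr
            exact pow_le_one₀ (norm_nonneg _) hz2
        _ = _ := mul_one _
    · have : rho (tt n z) = 0 := by
        rw [← rhoD_zero]; exact rhoD_eq_zero 0 (Or.inl (not_le.mp hz))
      rw [this]; simp

lemma bern {x t : ℝ} (hx : 0 ≤ x) (ht : 0 < t) : 10 * t ^ 9 * x - 9 * t ^ 10 ≤ x ^ 10 := by
  have h := one_add_mul_le_pow (a := x / t - 1) (by
    have : 0 ≤ x / t := by positivity
    linarith) 10
  have e : 1 + (x / t - 1) = x / t := by ring
  rw [e, div_pow, le_div_iff₀ (by positivity)] at h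
  calc 10 * t ^ 9 * x - 9 * t ^ 10 = (1 + (10 : ℕ) * (x / t - 1)) * t ^ 10 := by
        push_cast; field_simp; ring
    _ ≤ _ := h

/-- **Lower bound.** -/
theorem lower_bound (k : ℕ) :
    (Real.pi * cc ^ 10) * ak k ≤ ∫ z : ℂ, rho (tt (nn k) z) *
      ((ak k * nn k) * (‖deriv hh z‖ / (ak k * nn k)) ^ 10) := by
  have hn := nn_pos k
  have hn4 : (4 : ℝ) ≤ nn k := by exact_mod_cast nn_four k
  have ha := ak_pos k
  have han : 0 < ak k * nn k := mul_pos ha hn
  have h1 := int_deriv_ge k
  have h2 := int_rho_le (by linarith : (2 : ℝ) ≤ nn k)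
  have i1 : Integrable fun z : ℂ => rho (tt (nn k) z) := by
    have := cut_int 0 hn (g := fun _ => (1 : ℝ)) continuousOn_const
    simpa [rhoD_zero] using this
  have i2 : Integrable fun z : ℂ => rho (tt (nn k) z) * (‖deriv hh z‖ / (ak k * nn k)) := by
    have := cut_int 0 hn (g := fun z => ‖deriv hh z‖ / (ak k * nn k))
      (deriv_hh_cont.norm.div_const _)
    simpa [rhoD_zero] using this
  have i3 : Integrable fun z : ℂ => rho (tt (nn k) z) *
      ((ak k * nn k) * (‖deriv hh z‖ / (ak k * nn k)) ^ 10) := by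
    have := cut_int 0 hn (g := fun z => (ak k * nn k) * (‖deriv hh z‖ / (ak k * nn k)) ^ 10)
      ((continuousOn_const).mul ((deriv_hh_cont.norm.div_const _).pow 10))
    simpa [rhoD_zero] using this
  have hc := cc_pos
  calc (Real.pi * cc ^ 10) * ak k
      = (ak k * nn k) * (10 * cc ^ 9 * (cc * (Real.pi / nn k)) - 9 * cc ^ 10 * (Real.pi / nn k)) := by
        field_simp; ring
    _ ≤ (ak k * nn k) * (10 * cc ^ 9 * (∫ z : ℂ, rho (tt (nn k) z) *
          (‖deriv hh z‖ / (ak k * nn k))) - 9 * cc ^ 10 * ∫ z : ℂ, rho (tt (nn k) z)) := by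
        gcongr
    _ = ∫ z : ℂ, (ak k * nn k) * (10 * cc ^ 9 * (rho (tt (nn k) z) *
          (‖deriv hh z‖ / (ak k * nn k))) - 9 * cc ^ 10 * rho (tt (nn k) z)) := by
        rw [integral_const_mul, integral_sub (i2.const_mul _) (i1.const_mul _),
          integral_const_mul, integral_const_mul]
    _ ≤ _ := by
        apply integral_mono
        · exact ((i2.const_mul _).sub (i1.const_mul _)).const_mul _
        · exact i3
        · intro z
          simp only
          have hb := bern (x := ‖deriv hh z‖ / (ak k * nn k)) (t := cc) (by positivity) hc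
          have hr := rho_nonneg (tt (nn k) z)
          calc _ = rho (tt (nn k) z) * ((ak k * nn k) * (10 * cc ^ 9 *
                (‖deriv hh z‖ / (ak k * nn k)) - 9 * cc ^ 10)) := by ring
            _ ≤ _ := by gcongr

end

end Pool.Agent.Helper31.Dbar
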