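import Mathlib
import Pool.Agent.Helper31.Dbar.Defs

/-!
# Calculus for the Wirtinger derivatives
-/

namespace Pool.Agent.Helper31.Dbar

open MeasureTheory Complex
open scoped ContDiff

noncomputable section

variable {n : ℕ}

/-- `F` is real differentiable at `p` with `∂F/∂z̄_j = β_j`. -/
def HasDbar (F : (Fin n → ℂ) → ℂ) (β : Fin n → ℂ) (p : Fin n → ℂ) : Prop :=
  DifferentiableAt ℝ F p ∧ ∀ j, dbar j F p = β j

lemma HasDbar.const (c : ℂ) (p : Fin n → ℂ) : HasDbar (fun _ => c) 0 p := by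
  refine ⟨differentiableAt_const c, fun j => ?_⟩
  simp [dbar]

lemma HasDbar.add {F G : (Fin n → ℂ) → ℂ} {β γ : Fin n → ℂ} {p : Fin n → ℂ}
    (hF : HasDbar F β p) (hG : HasDbar G γ p) : HasDbar (fun q => F q + G q) (β + γ) p := by
  refine ⟨hF.1.fun_add hG.1, fun j => ?_⟩
  have h1 := hF.2 j
  have h2 := hG.2 j
  unfold dbar at h1 h2 ⊢
  rw [fderiv_fun_add hF.1 hG.1]
  simp only [add_apply, Pi.add_apply]
  rw [← h1, ← h2]
  ring

lemma HasDbar.mul {F G : (Fin n → ℂ) → ℂ} {β γ : Fin n → ℂ} {p : Fin n → ℂ}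
    (hF : HasDbar F β p) (hG : HasDbar G γ p) :
    HasDbar (fun q => F q * G q) (fun j => β j * G p + F p * γ j) p := by
  refine ⟨hF.1.fun_mul hG.1, fun j => ?_⟩
  have h1 := hF.2 j
  have h2 := hG.2 j
  unfold dbar at h1 h2 ⊢
  rw [fderiv_fun_mul hF.1 hG.1]
  simp only [add_apply, smul_apply, smul_eq_mul]
  rw [← h1, ← h2]
  ring

lemma HasDbar.const_mul {F : (Fin n → ℂ) → ℂ} {β : Fin n → ℂ} {p : Fin n → ℂ} (c : ℂ)
    (hF : HasDbar F β p) : HasDbar (fun q => c * F q) (fun j => c * β j) p := by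
  have h := (HasDbar.const c p).mul hF
  simpa using h

lemma HasDbar.sub {F G : (Fin n → ℂ) → ℂ} {β γ : Fin n → ℂ} {p : Fin n → ℂ}
    (hF : HasDbar F β p) (hG : HasDbar G γ p) : HasDbar (fun q => F q - G q) (β - γ) p := by
  have h := hF.add (hG.const_mul (-1))
  have e : (fun q => F q + -1 * G q) = fun q => F q - G q := by funext q; ring
  have e2 : (β + fun j => -1 * γ j) = β - γ := by funext j; simp; ring
  rw [e, e2] at h
  exact h

lemma HasDbar.pow {F : (Fin n → ℂ) → ℂ} {β : Fin n → ℂ} {p : Fin n → ℂ} (hF : HasDbar F β p)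
    (m : ℕ) : HasDbar (fun q => F q ^ (m + 1)) (fun j => (m + 1) * F p ^ m * β j) p := by
  induction m with
  | zero => simpa using hF
  | succ m ih =>
    have h := ih.mul hF
    have e : (fun q => F q ^ (m + 1) * F q) = fun q => F q ^ (m + 1 + 1) := by
      funext q; ring
    rw [e] at h
    refine ⟨h.1, fun j => ?_⟩
    rw [h.2 j]
    push_cast
    ring

lemma HasDbar.holo {F : (Fin n → ℂ) → ℂ} {p : Fin n → ℂ} (hF : DifferentiableAt ℂ F p) :
    HasDbar F 0 p := by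
  refine ⟨hF.restrictScalars ℝ, fun j => ?_⟩
  unfold dbar
  rw [hF.fderiv_restrictScalars ℝ]
  have e : (Pi.single j I : Fin n → ℂ) = I • Pi.single j 1 := by
    rw [← Pi.single_smul']; simp
  simp only [ContinuousLinearMap.coe_restrictScalars']
  rw [e, map_smul, smul_eq_mul, ← mul_assoc, I_mul_I]
  simp

lemma HasDbar.conj {F : (Fin n → ℂ) → ℂ} {F' : (Fin n → ℂ) →L[ℂ] ℂ} {p : Fin n → ℂ}
    (hF : HasFDerivAt F F' p) :
    HasDbar (fun q => starRingEnd ℂ (F q)) (fun j => starRingEnd ℂ (F' (Pi.single j 1))) p := by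
  have h1 : HasFDerivAt F (F'.restrictScalars ℝ) p := hF.restrictScalars ℝ
  have h2 : HasFDerivAt (fun q => starRingEnd ℂ (F q))
      ((conjCLE : ℂ →L[ℝ] ℂ).comp (F'.restrictScalars ℝ)) p :=
    (conjCLE : ℂ →L[ℝ] ℂ).hasFDerivAt.comp p h1
  refine ⟨h2.differentiableAt, fun j => ?_⟩
  unfold dbar
  rw [h2.fderiv]
  have e : (Pi.single j I : Fin n → ℂ) = I • Pi.single j 1 := by
    rw [← Pi.single_smul']; simp
  simp only [ContinuousLinearMap.comp_apply, ContinuousLinearMap.coe_restrictScalars',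
    ContinuousLinearEquiv.coe_coe, conjCLE_apply]
  rw [e, map_smul, smul_eq_mul, map_mul, conj_I, ← mul_assoc, mul_neg, I_mul_I]
  ring

/-- one variable version -/
def HasWb (G : ℂ → ℂ) (γ : ℂ) (z : ℂ) : Prop :=
  DifferentiableAt ℝ G z ∧ (1 / 2) * (fderiv ℝ G z 1 + I * fderiv ℝ G z I) = γ

lemma HasWb.congr {G : ℂ → ℂ} {γ γ' : ℂ} {z : ℂ} (h : HasWb G γ z) (e : γ = γ') :
    HasWb G γ' z := e ▸ h

lemma HasWb.const (c : ℂ) (z : ℂ) : HasWb (fun _ => c) 0 z := by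
  refine ⟨differentiableAt_const c, ?_⟩
  simp

lemma HasWb.add {F G : ℂ → ℂ} {β γ z : ℂ} (hF : HasWb F β z) (hG : HasWb G γ z) :
    HasWb (fun q => F q + G q) (β + γ) z := by
  refine ⟨hF.1.fun_add hG.1, ?_⟩
  rw [fderiv_fun_add hF.1 hG.1]
  simp only [add_apply]
  rw [← hF.2, ← hG.2]
  ring

lemma HasWb.mul {F G : ℂ → ℂ} {β γ z : ℂ} (hF : HasWb F β z) (hG : HasWb G γ z) :
    HasWb (fun q => F q * G q) (β * G z + F z * γ) z := by
  refine ⟨hF.1.fun_mul hG.1, ?_⟩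
  rw [fderiv_fun_mul hF.1 hG.1]
  simp only [add_apply, smul_apply, smul_eq_mul]
  rw [← hF.2, ← hG.2]
  ring

lemma HasWb.const_mul {F : ℂ → ℂ} {β z : ℂ} (c : ℂ) (hF : HasWb F β z) :
    HasWb (fun q => c * F q) (c * β) z := by
  have h := (HasWb.const c z).mul hF
  simpa using h

lemma HasWb.sub {F G : ℂ → ℂ} {β γ z : ℂ} (hF : HasWb F β z) (hG : HasWb G γ z) :
    HasWb (fun q => F q - G q) (β - γ) z := by
  refine ⟨hF.1.fun_sub hG.1, ?_⟩
  rw [fderiv_fun_sub hF.1 hG.1]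
  simp only [sub_apply]
  rw [← hF.2, ← hG.2]
  ring

lemma HasWb.pow {F : ℂ → ℂ} {β z : ℂ} (hF : HasWb F β z) (m : ℕ) :
    HasWb (fun q => F q ^ (m + 1)) ((m + 1) * F z ^ m * β) z := by
  induction m with
  | zero => simpa using hF
  | succ m ih =>
    have h := ih.mul hF
    have e : (fun q => F q ^ (m + 1) * F q) = fun q => F q ^ (m + 1 + 1) := by
      funext q; ring
    rw [e] at h
    refine h.congr ?_
    push_cast
    ring

lemma HasWb.holo {F : ℂ → ℂ} {z : ℂ} (hF : DifferentiableAt ℂ F z) : HasWb F 0 z := by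
  refine ⟨hF.restrictScalars ℝ, ?_⟩
  rw [hF.fderiv_restrictScalars ℝ]
  simp only [ContinuousLinearMap.coe_restrictScalars']
  have e : fderiv ℂ F z I = I * fderiv ℂ F z 1 := by
    have : (I : ℂ) = I • (1 : ℂ) := by simp
    conv_lhs => rw [this]
    rw [map_smul, smul_eq_mul]
  rw [e, ← mul_assoc, I_mul_I]
  simp

lemma HasWb.conj {F : ℂ → ℂ} {F' z : ℂ} (hF : HasDerivAt F F' z) :
    HasWb (fun q => starRingEnd ℂ (F q)) (starRingEnd ℂ F') z := by
  have h1 := (hF.hasFDerivAt).restrictScalars ℝ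
  have h2 := (conjCLE : ℂ →L[ℝ] ℂ).hasFDerivAt.comp z h1
  have h3 : HasFDerivAt (fun q => starRingEnd ℂ (F q)) _ z := h2
  refine ⟨h3.differentiableAt, ?_⟩
  rw [h3.fderiv]
  simp only [ContinuousLinearMap.comp_apply, ContinuousLinearMap.coe_restrictScalars',
    ContinuousLinearEquiv.coe_coe, conjCLE_apply, ContinuousLinearMap.toSpanSingleton_apply,
    smul_eq_mul, one_mul, map_mul, conj_I]
  rw [← mul_assoc, mul_neg, I_mul_I]
  ring

/-- lifting a one variable function -/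
lemma HasWb.lift {G : ℂ → ℂ} {γ : ℂ} {i : Fin n} {p : Fin n → ℂ} (h : HasWb G γ (p i)) :
    HasDbar (fun q => G (q i)) (fun j => if j = i then γ else 0) p := by
  have h1 : HasFDerivAt (fun q : Fin n → ℂ => q i)
      (ContinuousLinearMap.proj i : (Fin n → ℂ) →L[ℝ] ℂ) p :=
    (ContinuousLinearMap.proj i : (Fin n → ℂ) →L[ℝ] ℂ).hasFDerivAt
  have h2 := h.1.hasFDerivAt.comp p h1
  have h3 : HasFDerivAt (fun q => G (q i)) _ p := h2
  refine ⟨h3.differentiableAt, fun j => ?_⟩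
  unfold dbar
  rw [h3.fderiv]
  simp only [ContinuousLinearMap.comp_apply, ContinuousLinearMap.proj_apply]
  by_cases hj : j = i
  · subst hj
    simp only [Pi.single_eq_same, if_true]
    exact h.2
  · rw [Pi.single_eq_of_ne (Ne.symm hj), Pi.single_eq_of_ne (Ne.symm hj)]
    simp [hj]

/-- radial cut-offs -/
lemma HasWb.radial {χ : ℝ → ℝ} {χ' : ℝ} (N : ℝ) (z : ℂ)
    (hχ : HasDerivAt χ χ' (N * (1 - ‖z‖ ^ 2))) :
    HasWb (fun q => ((χ (N * (1 - ‖q‖ ^ 2)) : ℝ) : ℂ)) (-(N * z * χ')) z := by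
  have h0 : HasFDerivAt (fun q : ℂ => ‖q‖ ^ 2) (2 • (innerSL ℝ z)) z :=
    (hasStrictFDerivAt_norm_sq z).hasFDerivAt
  have h1 := (h0.const_sub 1).const_mul N
  have h2 := hχ.hasFDerivAt.comp z h1
  have h3 := ofRealCLM.hasFDerivAt.comp z h2
  have h4 : HasFDerivAt (fun q => ((χ (N * (1 - ‖q‖ ^ 2)) : ℝ) : ℂ)) _ z := h3
  refine ⟨h4.differentiableAt, ?_⟩
  rw [h4.fderiv]
  simp only [ContinuousLinearMap.comp_apply, smul_apply,
    neg_apply, innerSL_apply_apply, ofRealCLM_apply,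
    ContinuousLinearMap.toSpanSingleton_apply, smul_eq_mul, Complex.inner, nsmul_eq_mul]
  apply Complex.ext <;> simp <;> ring

end

end Pool.Agent.Helper31.Dbar
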