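import Mathlib
import Pool.Agent.Helper31.Dbar.Lower
import Pool.Agent.Helper31.Dbar.Wirt

/-!
# The building blocks of the forms
-/

namespace Pool.Agent.Helper31.Dbar

open MeasureTheory Complex
open scoped ContDiff

noncomputable section

lemma iter_diff (i : ℕ) : DifferentiableOn ℂ (iteratedDeriv i hh) (Metric.ball 0 1) := by
  induction i with
  | zero => rw [iteratedDeriv_zero]; exact hh_diff
  | succ i ih => rw [iteratedDeriv_succ]; exact ih.deriv Metric.isOpen_ball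

lemma iter_hasDeriv (i : ℕ) {z : ℂ} (hz : ‖z‖ < 1) :
    HasDerivAt (iteratedDeriv i hh) (iteratedDeriv (i + 1) hh z) z := by
  rw [iteratedDeriv_succ]
  exact ((iter_diff i).differentiableAt
    (Metric.isOpen_ball.mem_nhds (by simpa using hz))).hasDerivAt

/-- normalised derivative -/
def ss (k : ℕ) (z : ℂ) : ℂ := deriv hh z / (ak k * nn k)

/-- conjugates of the normalised higher derivatives -/
def bb (i k : ℕ) (z : ℂ) : ℂ :=
  (1 / ((ak k : ℂ) * (nn k : ℂ) ^ (i + 1))) * starRingEnd ℂ (iteratedDeriv (i + 1) hh z)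

/-- cut-offs -/
def rR (i k : ℕ) (z : ℂ) : ℂ := ((rhoD i (tt (nn k) z) : ℝ) : ℂ)

lemma ak_ne (k : ℕ) : (ak k : ℂ) ≠ 0 := by exact_mod_cast (ak_pos k).ne'
lemma nn_ne (k : ℕ) : (nn k : ℂ) ≠ 0 := by exact_mod_cast (nn_pos k).ne'

lemma bb_wb (i k : ℕ) {z : ℂ} (hz : ‖z‖ < 1) : HasWb (bb i k) (nn k * bb (i + 1) k z) z := by
  have h := (HasWb.conj (iter_hasDeriv (i + 1) hz)).const_mul
    (1 / ((ak k : ℂ) * (nn k : ℂ) ^ (i + 1)))
  refine HasWb.congr h ?_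
  unfold bb
  have h1 := ak_ne k
  have h2 := nn_ne k
  field_simp
  ring

lemma rR_wb (i k : ℕ) (z : ℂ) : HasWb (rR i k) (-(nn k * z * rR (i + 1) k z)) z := by
  have h := HasWb.radial (nn k : ℝ) z (rhoD_hasDeriv i ((nn k : ℝ) * (1 - ‖z‖ ^ 2)))
  have e : ((nn k : ℝ) : ℂ) = (nn k : ℂ) := by push_cast; rfl
  rw [e] at h
  exact h

lemma id_wb (z : ℂ) : HasWb (fun q => q) 0 z := HasWb.holo differentiableAt_id

/-- coefficients -/
def W1 (k : ℕ) (z : ℂ) : ℂ := bb 0 k z ^ 4 * rR 0 k z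

/-- coefficients -/
def W2 (k : ℕ) (z : ℂ) : ℂ :=
  (1 / (ak k : ℂ)) * (4 * (bb 0 k z ^ 2 * bb 1 k z * rR 0 k z) - bb 0 k z ^ 3 * (z * rR 1 k z))

/-- coefficients -/
def W3 (k : ℕ) (z : ℂ) : ℂ :=
  (1 / (ak k : ℂ) ^ 2) * (8 * (bb 1 k z ^ 2 * rR 0 k z) + 4 * (bb 0 k z * bb 2 k z * rR 0 k z)
    - 7 * (bb 0 k z * bb 1 k z * (z * rR 1 k z)) + bb 0 k z ^ 2 * (z ^ 2 * rR 2 k z))

/-- coefficients -/
def W4 (k : ℕ) (z : ℂ) : ℂ :=
  20 * (bb 1 k z * bb 2 k z * rR 0 k z) + 4 * (bb 0 k z * bb 3 k z * rR 0 k z)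
    - 15 * (bb 1 k z ^ 2 * (z * rR 1 k z)) - 11 * (bb 0 k z * bb 2 k z * (z * rR 1 k z))
    + 9 * (bb 0 k z * bb 1 k z * (z ^ 2 * rR 2 k z)) - bb 0 k z ^ 2 * (z ^ 3 * rR 3 k z)

lemma W1_wb (k : ℕ) {z : ℂ} (hz : ‖z‖ < 1) :
    HasWb (W1 k) (ak k * nn k * bb 0 k z * W2 k z) z := by
  have hb0 := bb_wb 0 k hz
  have hR0 := rR_wb 0 k z
  have h := (hb0.pow 3).mul hR0
  refine HasWb.congr h ?_
  unfold W2
  have h1 := ak_ne k
  push_cast
  field_simp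
  ring

lemma W2_wb (k : ℕ) {z : ℂ} (hz : ‖z‖ < 1) :
    HasWb (W2 k) (ak k * nn k * bb 0 k z * W3 k z) z := by
  have hb0 := bb_wb 0 k hz
  have hb1 := bb_wb 1 k hz
  have hR0 := rR_wb 0 k z
  have hR1 := rR_wb 1 k z
  have h := ((((hb0.pow 1).mul hb1).mul hR0).const_mul 4).sub
    ((hb0.pow 2).mul ((id_wb z).mul hR1))
  have h' := h.const_mul (1 / (ak k : ℂ))
  refine HasWb.congr h' ?_
  unfold W3
  have h1 := ak_ne k
  push_cast
  field_simp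
  ring

lemma W3_wb (k : ℕ) {z : ℂ} (hz : ‖z‖ < 1) :
    HasWb (W3 k) ((nn k / (ak k : ℂ) ^ 2) * W4 k z) z := by
  have hb0 := bb_wb 0 k hz
  have hb1 := bb_wb 1 k hz
  have hb2 := bb_wb 2 k hz
  have hR0 := rR_wb 0 k z
  have hR1 := rR_wb 1 k z
  have hR2 := rR_wb 2 k z
  have h := (((((hb1.pow 1).mul hR0).const_mul 8).add (((hb0.mul hb2).mul hR0).const_mul 4)).sub
    (((hb0.mul hb1).mul ((id_wb z).mul hR1)).const_mul 7)).add
    ((hb0.pow 1).mul (((id_wb z).pow 1).mul hR2))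
  have h' := h.const_mul (1 / (ak k : ℂ) ^ 2)
  refine HasWb.congr h' ?_
  unfold W4
  have h1 := ak_ne k
  push_cast
  field_simp
  ring

lemma W4_diff (k : ℕ) {z : ℂ} (hz : ‖z‖ < 1) : ∃ γ, HasWb (W4 k) γ z := by
  have hb0 := bb_wb 0 k hz
  have hb1 := bb_wb 1 k hz
  have hb2 := bb_wb 2 k hz
  have hb3 := bb_wb 3 k hz
  have hR0 := rR_wb 0 k z
  have hR1 := rR_wb 1 k z
  have hR2 := rR_wb 2 k z
  have hR3 := rR_wb 3 k z
  have h := (((((((hb1.mul hb2).mul hR0).const_mul 20).add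
    (((hb0.mul hb3).mul hR0).const_mul 4)).sub
    (((hb1.pow 1).mul ((id_wb z).mul hR1)).const_mul 15)).sub
    (((hb0.mul hb2).mul ((id_wb z).mul hR1)).const_mul 11)).add
    (((hb0.mul hb1).mul (((id_wb z).pow 1).mul hR2)).const_mul 9)).sub
    ((hb0.pow 1).mul (((id_wb z).pow 2).mul hR3))
  exact ⟨_, h⟩

/-- the holomorphic factor -/
def SS (k : ℕ) (z : ℂ) : ℂ := ss k z ^ 5

lemma ss_diffAt (k : ℕ) {z : ℂ} (hz : ‖z‖ < 1) : DifferentiableAt ℂ (ss k) z := by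
  have h := (iter_diff 1).differentiableAt (Metric.isOpen_ball.mem_nhds
    (show z ∈ Metric.ball (0 : ℂ) 1 by simpa using hz))
  rw [iteratedDeriv_one] at h
  exact h.div_const _

lemma SS_wb (k : ℕ) {z : ℂ} (hz : ‖z‖ < 1) : HasWb (SS k) 0 z :=
  HasWb.holo ((ss_diffAt k hz).pow 5)

/-- the conjugate of the second (sheared) coordinate -/
def ww (p : Fin 2 → ℂ) : ℂ := starRingEnd ℂ (p 1 - hh (p 0))

lemma shear_deriv {p : Fin 2 → ℂ} (hp : ‖p 0‖ < 1) :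
    HasFDerivAt (fun q : Fin 2 → ℂ => q 1 - hh (q 0))
      ((ContinuousLinearMap.proj 1 : (Fin 2 → ℂ) →L[ℂ] ℂ) -
        (deriv hh (p 0)) • (ContinuousLinearMap.proj 0 : (Fin 2 → ℂ) →L[ℂ] ℂ)) p := by
  have h1 : HasFDerivAt (fun q : Fin 2 → ℂ => q 1)
      (ContinuousLinearMap.proj 1 : (Fin 2 → ℂ) →L[ℂ] ℂ) p :=
    (ContinuousLinearMap.proj 1 : (Fin 2 → ℂ) →L[ℂ] ℂ).hasFDerivAt
  have h0 : HasFDerivAt (fun q : Fin 2 → ℂ => q 0)
      (ContinuousLinearMap.proj 0 : (Fin 2 → ℂ) →L[ℂ] ℂ) p :=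
    (ContinuousLinearMap.proj 0 : (Fin 2 → ℂ) →L[ℂ] ℂ).hasFDerivAt
  have h2 : HasDerivAt hh (deriv hh (p 0)) (p 0) := (hh_diffAt _ hp).hasDerivAt
  have h3 := h2.comp_hasFDerivAt p h0
  exact h1.sub h3

lemma ww_dbar {p : Fin 2 → ℂ} (hp : ‖p 0‖ < 1) (k : ℕ) :
    HasDbar ww (fun j => if j = 0 then -(ak k * nn k * bb 0 k (p 0)) else 1) p := by
  have h := HasDbar.conj (shear_deriv hp)
  refine ⟨h.1, fun j => ?_⟩
  have h2 := h.2 j
  unfold ww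
  rw [h2]
  have h3 := ak_ne k
  have h4 := nn_ne k
  fin_cases j
  · simp only [bb, zero_add, iteratedDeriv_one, pow_one]
    simp
    field_simp
  · simp

/-- the `dz̄₁` coefficient -/
def F0 (k : ℕ) (p : Fin 2 → ℂ) : ℂ :=
  SS k (p 0) * ((nn k / (6 * (ak k : ℂ) ^ 2)) * (W4 k (p 0) * ww p ^ 3))

/-- the `dz̄₂` coefficient -/
def F1 (k : ℕ) (p : Fin 2 → ℂ) : ℂ :=
  SS k (p 0) * (W1 k (p 0) + (W2 k (p 0) * ww p + (1 / 2) * (W3 k (p 0) * ww p ^ 2)))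

/-- **Closedness**, pointwise version. -/
lemma closed_pointwise (k : ℕ) {p : Fin 2 → ℂ} (hp : ‖p 0‖ < 1) :
    DifferentiableAt ℝ (F0 k) p ∧ DifferentiableAt ℝ (F1 k) p ∧
      dbar 1 (F0 k) p = dbar 0 (F1 k) p := by
  have hS := (SS_wb k hp).lift (n := 2) (i := 0) (p := p)
  have h1 := (W1_wb k hp).lift (n := 2) (i := 0) (p := p)
  have h2 := (W2_wb k hp).lift (n := 2) (i := 0) (p := p)
  have h3 := (W3_wb k hp).lift (n := 2) (i := 0) (p := p)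
  obtain ⟨γ, hγ⟩ := W4_diff k hp
  have h4 := hγ.lift (n := 2) (i := 0) (p := p)
  have hw := ww_dbar hp k
  have g0 := hS.mul (((h4.mul (hw.pow 2))).const_mul (nn k / (6 * (ak k : ℂ) ^ 2)))
  have g1 := hS.mul (h1.add ((h2.mul hw).add ((h3.mul (hw.pow 1)).const_mul (1 / 2))))
  refine ⟨g0.1, g1.1, ?_⟩
  have e0 := g0.2 1
  have e1 := g1.2 0
  have e0' : dbar 1 (F0 k) p = _ := e0
  have e1' : dbar 0 (F1 k) p = _ := e1
  rw [e0', e1']
  simp only [Pi.add_apply, one_ne_zero, if_false, if_true, zero_mul, zero_add, pow_one]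
  push_cast
  have h3 := ak_ne k
  have h4 := nn_ne k
  field_simp
  ring

end

end Pool.Agent.Helper31.Dbar
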