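import Mathlib
import Pool.Agent.Helper31.Dbar.Piece
import Pool.Agent.Helper31.Dbar.Ibp

/-!
# The bounded closed forms
-/

namespace Pool.Agent.Helper31.Dbar

open MeasureTheory Complex Filter Topology
open scoped ContDiff

noncomputable section

/-- the domain: the image of the unit ball under the shear `(z, w) ↦ (z, w + h(z))` -/
def Om : Set (Fin 2 → ℂ) := {p | ‖p 0‖ ^ 2 + ‖p 1 - hh (p 0)‖ ^ 2 < 1}

/-- the cylinder -/
def UU : Set (Fin 2 → ℂ) := {p | ‖p 0‖ < 1}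

lemma UU_open : IsOpen UU := isOpen_lt (by fun_prop) continuous_const

lemma Om_sub : Om ⊆ UU := by
  intro p hp
  have h1 : ‖p 0‖ ^ 2 + ‖p 1 - hh (p 0)‖ ^ 2 < 1 := hp
  have h2 : ‖p 0‖ ^ 2 < 1 ^ 2 := by nlinarith [sq_nonneg ‖p 1 - hh (p 0)‖]
  exact lt_of_pow_lt_pow_left₀ 2 (by norm_num) h2

lemma iter_cd (i : ℕ) : ContDiffOn ℝ ∞ (iteratedDeriv i hh) (Metric.ball 0 1) :=
  ((iter_diff i).contDiffOn Metric.isOpen_ball).restrict_scalars ℝ

lemma bb_cd (i k : ℕ) : ContDiffOn ℝ ∞ (bb i k) (Metric.ball 0 1) := by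
  unfold bb
  apply ContDiffOn.mul contDiffOn_const
  exact (conjCLE : ℂ →L[ℝ] ℂ).contDiff.comp_contDiffOn (iter_cd (i + 1))

lemma tt_cd (n : ℝ) : ContDiff ℝ ∞ (tt n) := by
  unfold tt
  exact contDiff_const.mul (contDiff_const.sub (contDiff_norm_sq ℝ))

lemma rR_cd (i k : ℕ) : ContDiffOn ℝ ∞ (rR i k) (Metric.ball 0 1) := by
  apply ContDiff.contDiffOn
  exact ofRealCLM.contDiff.comp ((rhoD_smooth i).comp (tt_cd _))

lemma SS_cd (k : ℕ) : ContDiffOn ℝ ∞ (SS k) (Metric.ball 0 1) := by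
  have h := iter_cd 1
  rw [iteratedDeriv_one] at h
  exact (h.div_const _).pow 5

lemma id_cd : ContDiffOn ℝ ∞ (fun z : ℂ => z) (Metric.ball 0 1) := contDiffOn_id

lemma W1_cd (k : ℕ) : ContDiffOn ℝ ∞ (W1 k) (Metric.ball 0 1) :=
  ((bb_cd 0 k).pow 4).mul (rR_cd 0 k)

lemma W2_cd (k : ℕ) : ContDiffOn ℝ ∞ (W2 k) (Metric.ball 0 1) :=
  contDiffOn_const.mul ((contDiffOn_const.mul ((((bb_cd 0 k).pow 2).mul (bb_cd 1 k)).mul
    (rR_cd 0 k))).sub (((bb_cd 0 k).pow 3).mul (id_cd.mul (rR_cd 1 k))))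

lemma W3_cd (k : ℕ) : ContDiffOn ℝ ∞ (W3 k) (Metric.ball 0 1) :=
  contDiffOn_const.mul ((((contDiffOn_const.mul (((bb_cd 1 k).pow 2).mul (rR_cd 0 k))).add
    (contDiffOn_const.mul (((bb_cd 0 k).mul (bb_cd 2 k)).mul (rR_cd 0 k)))).sub
    (contDiffOn_const.mul (((bb_cd 0 k).mul (bb_cd 1 k)).mul (id_cd.mul (rR_cd 1 k))))).add
    (((bb_cd 0 k).pow 2).mul ((id_cd.pow 2).mul (rR_cd 2 k))))

lemma W4_cd (k : ℕ) : ContDiffOn ℝ ∞ (W4 k) (Metric.ball 0 1) :=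
  (((((contDiffOn_const.mul (((bb_cd 1 k).mul (bb_cd 2 k)).mul (rR_cd 0 k))).add
    (contDiffOn_const.mul (((bb_cd 0 k).mul (bb_cd 3 k)).mul (rR_cd 0 k)))).sub
    (contDiffOn_const.mul (((bb_cd 1 k).pow 2).mul (id_cd.mul (rR_cd 1 k))))).sub
    (contDiffOn_const.mul (((bb_cd 0 k).mul (bb_cd 2 k)).mul (id_cd.mul (rR_cd 1 k))))).add
    (contDiffOn_const.mul (((bb_cd 0 k).mul (bb_cd 1 k)).mul ((id_cd.pow 2).mul (rR_cd 2 k))))).sub
    (((bb_cd 0 k).pow 2).mul ((id_cd.pow 3).mul (rR_cd 3 k)))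

lemma lift_cd {G : ℂ → ℂ} (hG : ContDiffOn ℝ ∞ G (Metric.ball 0 1)) :
    ContDiffOn ℝ ∞ (fun p : Fin 2 → ℂ => G (p 0)) UU := by
  apply hG.comp (t := Metric.ball 0 1)
  · exact (ContinuousLinearMap.proj 0 : (Fin 2 → ℂ) →L[ℝ] ℂ).contDiff.contDiffOn
  · intro p hp
    have : ‖p 0‖ < 1 := hp
    simpa using this

lemma sh_cd : ContDiffOn ℝ ∞ (fun p : Fin 2 → ℂ => p 1 - hh (p 0)) UU := by
  have h := iter_cd 0
  rw [iteratedDeriv_zero] at h
  exact ((ContinuousLinearMap.proj 1 : (Fin 2 → ℂ) →L[ℝ] ℂ).contDiff.contDiffOn).sub (lift_cd h)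

lemma ww_cd : ContDiffOn ℝ ∞ ww UU :=
  (conjCLE : ℂ →L[ℝ] ℂ).contDiff.comp_contDiffOn sh_cd

lemma F0_cd (k : ℕ) : ContDiffOn ℝ ∞ (F0 k) UU :=
  (lift_cd (SS_cd k)).mul (contDiffOn_const.mul ((lift_cd (W4_cd k)).mul (ww_cd.pow 3)))

lemma F1_cd (k : ℕ) : ContDiffOn ℝ ∞ (F1 k) UU :=
  (lift_cd (SS_cd k)).mul ((lift_cd (W1_cd k)).add (((lift_cd (W2_cd k)).mul ww_cd).add
    (contDiffOn_const.mul ((lift_cd (W3_cd k)).mul (ww_cd.pow 2)))))

/-- the forms -/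
def FF (K : ℕ) : Fin 2 → (Fin 2 → ℂ) → ℂ :=
  ![fun p => ∑ k ∈ Finset.range K, F0 k p, fun p => ∑ k ∈ Finset.range K, F1 k p]

lemma FF_cd (K : ℕ) (j : Fin 2) : ContDiffOn ℝ 1 (FF K j) UU := by
  have h0 : ContDiffOn ℝ ∞ (fun p => ∑ k ∈ Finset.range K, F0 k p) UU :=
    ContDiffOn.sum fun k _ => F0_cd k
  have h1 : ContDiffOn ℝ ∞ (fun p => ∑ k ∈ Finset.range K, F1 k p) UU :=
    ContDiffOn.sum fun k _ => F1_cd k
  fin_cases j
  · exact h0.of_le (by exact_mod_cast le_top)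
  · exact h1.of_le (by exact_mod_cast le_top)

lemma dbar_sum {n : ℕ} {j : Fin n} {K : ℕ} {F : ℕ → (Fin n → ℂ) → ℂ} {p : Fin n → ℂ}
    (h : ∀ k, DifferentiableAt ℝ (F k) p) :
    dbar j (fun q => ∑ k ∈ Finset.range K, F k q) p = ∑ k ∈ Finset.range K, dbar j (F k) p := by
  unfold dbar
  rw [fderiv_fun_sum (fun k _ => h k)]
  simp only [sum_apply]
  rw [Finset.mul_sum, ← Finset.sum_add_distrib, Finset.mul_sum]

lemma FF_closed (K : ℕ) : DbarClosed Om (FF K) := by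
  apply closed_of_pointwise UU_open Om_sub (FF_cd K)
  intro p hp
  have e0 : FF K 0 = fun p => ∑ k ∈ Finset.range K, F0 k p := rfl
  have e1 : FF K 1 = fun p => ∑ k ∈ Finset.range K, F1 k p := rfl
  rw [e0, e1, dbar_sum (fun k => (closed_pointwise k hp).1),
    dbar_sum (fun k => (closed_pointwise k hp).2.1)]
  exact Finset.sum_congr rfl fun k _ => (closed_pointwise k hp).2.2

/-! ### Bounds -/

/-- a crude bound for the normalised derivatives -/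
lemma bb_norm {i : ℕ} (hi : i < 4) (k : ℕ) {z : ℂ} (hz : 1 ≤ tt (nn k) z) :
    ‖bb i k z‖ ≤ 1536 := by
  have hn := nn_pos k
  have hn4 : (4 : ℝ) ≤ nn k := by exact_mod_cast nn_four k
  have ha := ak_pos k
  have hz1 := norm_of_tt (by linarith : (1 : ℝ) ≤ nn k) hz
  have hR : 0 < 1 / (4 * (nn k : ℝ)) := by positivity
  have e1 : 1 / (2 * (nn k : ℝ)) = 1 / (4 * (nn k : ℝ)) + 1 / (4 * (nn k : ℝ)) := by
    field_simp; norm_num
  have hsub : Metric.closedBall z (1 / (4 * (nn k : ℝ))) ⊆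
      {w | ‖w‖ ≤ 1 - 1 / (4 * (nn k : ℝ))} := by
    intro w hw
    have h1 : ‖w - z‖ ≤ 1 / (4 * (nn k : ℝ)) := by simpa [dist_eq_norm] using hw
    have h2 : ‖w‖ ≤ ‖w - z‖ + ‖z‖ := by
      calc ‖w‖ = ‖(w - z) + z‖ := by ring_nf
        _ ≤ _ := norm_add_le _ _
    show ‖w‖ ≤ 1 - 1 / (4 * (nn k : ℝ))
    linarith
  have hsub2 : {w : ℂ | ‖w‖ ≤ 1 - 1 / (4 * (nn k : ℝ))} ⊆ Metric.ball 0 1 := by
    intro w hw
    have h1 : ‖w‖ ≤ 1 - 1 / (4 * (nn k : ℝ)) := hw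
    rw [mem_ball_zero_iff]
    linarith
  have hd : DifferentiableOn ℂ (deriv hh) (Metric.ball 0 1) := hh_diff.deriv Metric.isOpen_ball
  have h := Complex.norm_iteratedDeriv_le_of_forall_mem_sphere_norm_le (c := z) (f := deriv hh)
    (R := 1 / (4 * (nn k : ℝ))) (C := 4 * (ak k * nn k)) i hR
    ((hd.mono (hsub.trans hsub2)).diffContOnCl_ball (le_refl _))
    (fun w hw => deriv_hh_norm k w (hsub (Metric.sphere_subset_closedBall hw)))
  have e2 : iteratedDeriv (i + 1) hh = iteratedDeriv i (deriv hh) := iteratedDeriv_succ'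
  unfold bb
  rw [norm_mul, RCLike.norm_conj, e2]
  have e3 : ‖1 / ((ak k : ℂ) * (nn k : ℂ) ^ (i + 1))‖ = 1 / (ak k * (nn k : ℝ) ^ (i + 1)) := by
    rw [norm_div, norm_one, norm_mul, norm_pow, Complex.norm_real, Real.norm_eq_abs,
      abs_of_pos ha, Complex.norm_natCast]
  rw [e3]
  calc 1 / (ak k * (nn k : ℝ) ^ (i + 1)) * ‖iteratedDeriv i (deriv hh) z‖
      ≤ 1 / (ak k * (nn k : ℝ) ^ (i + 1)) *
        (i.factorial * (4 * (ak k * nn k)) / (1 / (4 * (nn k : ℝ))) ^ i) := by gcongr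
    _ = i.factorial * 4 ^ i * 4 := by
        rw [div_pow, one_pow, mul_pow]
        field_simp
        ring
    _ ≤ 1536 := by
        have : i = 0 ∨ i = 1 ∨ i = 2 ∨ i = 3 := by omega
        rcases this with rfl | rfl | rfl | rfl <;> norm_num [Nat.factorial]

lemma rR_zero (i k : ℕ) {z : ℂ} (h : tt (nn k) z < 1 ∨ 2 < tt (nn k) z) : rR i k z = 0 := by
  unfold rR
  rw [rhoD_eq_zero i h]
  simp

lemma W_zero (k : ℕ) {z : ℂ} (h : tt (nn k) z < 1 ∨ 2 < tt (nn k) z) :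
    W1 k z = 0 ∧ W2 k z = 0 ∧ W3 k z = 0 ∧ W4 k z = 0 := by
  unfold W1 W2 W3 W4
  rw [rR_zero 0 k h, rR_zero 1 k h, rR_zero 2 k h, rR_zero 3 k h]
  simp

lemma F_zero (k : ℕ) {p : Fin 2 → ℂ} (h : tt (nn k) (p 0) < 1 ∨ 2 < tt (nn k) (p 0)) :
    F0 k p = 0 ∧ F1 k p = 0 := by
  obtain ⟨h1, h2, h3, h4⟩ := W_zero k h
  unfold F0 F1
  rw [h1, h2, h3, h4]
  simp

lemma F_bound : ∃ C : ℝ, 0 < C ∧ ∀ k, ∀ p ∈ Om, ‖F0 k p‖ ≤ C ∧ ‖F1 k p‖ ≤ C := by
  obtain ⟨M, hM1, hM⟩ := rhoD_bound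
  set D : ℝ := 1536 with hD
  refine ⟨100 * D ^ 9 * M, by positivity, ?_⟩
  intro k p hp
  by_cases hz : tt (nn k) (p 0) < 1 ∨ 2 < tt (nn k) (p 0)
  · obtain ⟨h0, h1⟩ := F_zero k hz
    rw [h0, h1, norm_zero]
    constructor <;> positivity
  push Not at hz
  obtain ⟨hz1, hz2⟩ := hz
  have hn := nn_pos k
  have hn4 : (4 : ℝ) ≤ nn k := by exact_mod_cast nn_four k
  have ha := ak_pos k
  have ha1 := ak_le_one k
  set z := p 0 with hzdef
  have hb0 := bb_norm (i := 0) (by norm_num) k hz1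
  have hb1 := bb_norm (i := 1) (by norm_num) k hz1
  have hb2 := bb_norm (i := 2) (by norm_num) k hz1
  have hb3 := bb_norm (i := 3) (by norm_num) k hz1
  have hR : ∀ i < 4, ‖rR i k z‖ ≤ M := by
    intro i hi
    unfold rR
    rw [Complex.norm_real]
    exact hM i hi _
  have hR0 := hR 0 (by norm_num)
  have hR1 := hR 1 (by norm_num)
  have hR2 := hR 2 (by norm_num)
  have hR3 := hR 3 (by norm_num)
  have hzn : ‖z‖ ≤ 1 := (Om_sub hp).le
  have hS : ‖SS k z‖ ≤ D ^ 5 := by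
    unfold SS ss
    rw [norm_pow]
    have hz3 := norm_of_tt' (by linarith : (1 : ℝ) ≤ nn k) hz1
    have h1 := deriv_hh_norm k z hz3
    have h2 : ‖deriv hh z / (ak k * nn k)‖ ≤ 4 := by
      rw [norm_div, norm_mul, Complex.norm_real, Real.norm_eq_abs, abs_of_pos ha,
        Complex.norm_natCast, div_le_iff₀ (by positivity)]
      exact h1
    calc _ ≤ (4 : ℝ) ^ 5 := by gcongr
      _ ≤ D ^ 5 := by rw [hD]; norm_num
  -- the size of the fibre coordinate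
  have hw2 : ‖ww p‖ ^ 2 * nn k ≤ 2 := by
    have h1 : ‖p 0‖ ^ 2 + ‖p 1 - hh (p 0)‖ ^ 2 < 1 := hp
    have h2 : ‖ww p‖ = ‖p 1 - hh (p 0)‖ := by unfold ww; rw [RCLike.norm_conj]
    rw [h2]
    have h3 : (nn k : ℝ) * (1 - ‖z‖ ^ 2) ≤ 2 := hz2
    have h4 : ‖p 1 - hh (p 0)‖ ^ 2 ≤ 1 - ‖z‖ ^ 2 := by rw [hzdef]; linarith
    calc ‖p 1 - hh (p 0)‖ ^ 2 * nn k ≤ (1 - ‖z‖ ^ 2) * nn k := by gcongr
      _ ≤ 2 := by linarith
  have hna : 1 ≤ nn k * ak k ^ 4 := by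
    have h1 : (((k + 1) ^ 4 : ℕ) : ℝ) ≤ nn k := by exact_mod_cast nn_pow k
    push_cast at h1
    unfold ak
    rw [div_pow, one_pow, mul_one_div, le_div_iff₀ (by positivity)]
    linarith
  have hw : ‖ww p‖ ≤ 2 * ak k ^ 2 := by
    have h1 : ‖ww p‖ ^ 2 ≤ (2 * ak k ^ 2) ^ 2 := by
      have h2 : ‖ww p‖ ^ 2 ≤ ‖ww p‖ ^ 2 * (nn k * ak k ^ 4) := by
        nlinarith [sq_nonneg ‖ww p‖]
      have h3 : ‖ww p‖ ^ 2 * (nn k * ak k ^ 4) ≤ 2 * ak k ^ 4 := by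
        calc _ = (‖ww p‖ ^ 2 * nn k) * ak k ^ 4 := by ring
          _ ≤ _ := by gcongr
      nlinarith [pow_pos ha 4]
    exact abs_le_of_sq_le_sq' h1 (by positivity) |>.2
  have hw0 := norm_nonneg (ww p)
  have hM0 : 0 ≤ M := by linarith
  have hak : ‖(ak k : ℂ)‖ = ak k := by
    rw [Complex.norm_real, Real.norm_eq_abs, abs_of_pos ha]
  have c8 : ‖(8 : ℂ)‖ = 8 := by norm_num
  have n4 : ‖(4 : ℂ)‖ = 4 := by norm_num
  have n7 : ‖(7 : ℂ)‖ = 7 := by norm_num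
  have n20 : ‖(20 : ℂ)‖ = 20 := by norm_num
  have n15 : ‖(15 : ℂ)‖ = 15 := by norm_num
  have n11 : ‖(11 : ℂ)‖ = 11 := by norm_num
  have n9 : ‖(9 : ℂ)‖ = 9 := by norm_num
  have hW1 : ‖W1 k z‖ ≤ D ^ 4 * M := by
    unfold W1
    rw [norm_mul, norm_pow]
    gcongr
  have hW2 : ‖W2 k z‖ ≤ (1 / ak k) * (5 * D ^ 3 * M) := by
    unfold W2
    rw [norm_mul, norm_div, norm_one, hak]
    gcongr
    refine (norm_sub_le _ _).trans ?_
    simp only [norm_mul, norm_pow, n4]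
    calc _ ≤ 4 * (D ^ 2 * D * M) + D ^ 3 * (1 * M) := by gcongr
      _ = 5 * D ^ 3 * M := by ring
  have hW3 : ‖W3 k z‖ ≤ (1 / ak k ^ 2) * (20 * D ^ 2 * M) := by
    unfold W3
    rw [norm_mul, norm_div, norm_one, norm_pow, hak]
    gcongr
    refine (norm_add_le _ _).trans ?_
    refine (add_le_add_left (norm_sub_le _ _) _).trans ?_
    refine (add_le_add_left (add_le_add_left (norm_add_le _ _) _) _).trans ?_
    simp only [norm_mul, norm_pow, n4, n7, c8]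
    calc _ ≤ 8 * (D ^ 2 * M) + 4 * (D * D * M) + 7 * (D * D * (1 * M)) + D ^ 2 * (1 ^ 2 * M) := by
          gcongr
      _ = 20 * D ^ 2 * M := by ring
  have hW4 : ‖W4 k z‖ ≤ 60 * D ^ 2 * M := by
    unfold W4
    refine (norm_sub_le _ _).trans ?_
    refine (add_le_add_left (norm_add_le _ _) _).trans ?_
    refine (add_le_add_left (add_le_add_left (norm_sub_le _ _) _) _).trans ?_
    refine (add_le_add_left (add_le_add_left (add_le_add_left (norm_sub_le _ _) _) _) _).trans ?_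
    refine (add_le_add_left (add_le_add_left (add_le_add_left (add_le_add_left
      (norm_add_le _ _) _) _) _) _).trans ?_
    simp only [norm_mul, norm_pow, n4, n20, n15, n11, n9]
    calc _ ≤ 20 * (D * D * M) + 4 * (D * D * M) + 15 * (D ^ 2 * (1 * M)) +
          11 * (D * D * (1 * M)) + 9 * (D * D * (1 ^ 2 * M)) + D ^ 2 * (1 ^ 3 * M) := by
          gcongr
      _ = 60 * D ^ 2 * M := by ring
  have hD1 : 1 ≤ D := by rw [hD]; norm_num
  have hD23 : D ^ 2 ≤ D ^ 4 := pow_le_pow_right₀ hD1 (by norm_num)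
  have hD34 : D ^ 3 ≤ D ^ 4 := pow_le_pow_right₀ hD1 (by norm_num)
  have ha2 : ak k ^ 2 ≤ 1 := pow_le_one₀ ha.le ha1
  have t2 : ‖W2 k z‖ * ‖ww p‖ ≤ 10 * D ^ 4 * M := by
    calc ‖W2 k z‖ * ‖ww p‖ ≤ ((1 / ak k) * (5 * D ^ 3 * M)) * (2 * ak k ^ 2) := by gcongr
      _ = 10 * D ^ 3 * M * ak k := by field_simp; ring
      _ ≤ 10 * D ^ 4 * M * 1 := by gcongr
      _ = _ := mul_one _
  have t3 : ‖W3 k z‖ * ‖ww p‖ ^ 2 ≤ 80 * D ^ 4 * M := by
    calc ‖W3 k z‖ * ‖ww p‖ ^ 2 ≤ ((1 / ak k ^ 2) * (20 * D ^ 2 * M)) * (2 * ak k ^ 2) ^ 2 := by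
          gcongr
      _ = 80 * D ^ 2 * M * ak k ^ 2 := by field_simp; ring
      _ ≤ 80 * D ^ 4 * M * 1 := by gcongr
      _ = _ := mul_one _
  constructor
  · unfold F0
    rw [norm_mul]
    have e : ‖(nn k : ℂ) / (6 * (ak k : ℂ) ^ 2) * (W4 k z * ww p ^ 3)‖ =
        ‖W4 k z‖ * ((‖ww p‖ ^ 2 * nn k) * (‖ww p‖ / ak k ^ 2)) / 6 := by
      have n6 : ‖(6 : ℂ)‖ = 6 := by norm_num
      rw [norm_mul, norm_div, norm_mul, norm_mul, norm_pow, norm_pow, hak, Complex.norm_natCast, n6]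
      field_simp
    rw [e]
    have h5 : ‖ww p‖ / ak k ^ 2 ≤ 2 := by
      rw [div_le_iff₀ (by positivity)]; exact hw
    calc ‖SS k z‖ * (‖W4 k z‖ * ((‖ww p‖ ^ 2 * nn k) * (‖ww p‖ / ak k ^ 2)) / 6)
        ≤ D ^ 5 * ((60 * D ^ 2 * M) * (2 * 2) / 6) := by gcongr
      _ = 40 * D ^ 5 * D ^ 2 * M := by ring
      _ ≤ 100 * D ^ 5 * D ^ 4 * M := by gcongr; norm_num
      _ = 100 * D ^ 9 * M := by ring
  · unfold F1
    rw [norm_mul]
    calc _ ≤ D ^ 5 * (D ^ 4 * M + (10 * D ^ 4 * M + (1 / 2) * (80 * D ^ 4 * M))) := by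
          gcongr
          refine (norm_add_le _ _).trans ?_
          refine (add_le_add_right (norm_add_le _ _) _).trans ?_
          have n2 : ‖(1 / 2 : ℂ)‖ = 1 / 2 := by norm_num
          simp only [norm_mul, norm_pow, n2]
          gcongr
      _ = 51 * D ^ 9 * M := by ring
      _ ≤ 100 * D ^ 9 * M := by gcongr; norm_num

lemma nn_ratio {i j : ℕ} (h : i < j) : 2 * nn i < nn j := by
  have h1 := nn_two i
  have h2 : nn (i + 1) ≤ nn j := nn_mono.monotone h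
  omega

/-- the annuli are disjoint -/
lemma ann_disj {i j : ℕ} (hij : i ≠ j) {z : ℂ} (h1 : 1 ≤ tt (nn i) z) (h2 : tt (nn i) z ≤ 2) :
    tt (nn j) z < 1 ∨ 2 < tt (nn j) z := by
  unfold tt at *
  have hi := nn_pos i
  have hj := nn_pos j
  have hpos : 0 < 1 - ‖z‖ ^ 2 := by
    by_contra hcon
    push Not at hcon
    nlinarith
  rcases lt_or_gt_of_ne hij with h | h
  · right
    have h3 : (2 : ℝ) * nn i < nn j := by exact_mod_cast nn_ratio h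
    nlinarith
  · left
    have h3 : (2 : ℝ) * nn j < nn i := by exact_mod_cast nn_ratio h
    nlinarith

lemma FF_bound : ∃ C : ℝ, 0 < C ∧ ∀ K j, ∀ p ∈ Om, ‖FF K j p‖ ≤ C := by
  obtain ⟨C, hC, h⟩ := F_bound
  refine ⟨C, hC, ?_⟩
  intro K j p hp
  by_cases hex : ∃ k₀, 1 ≤ tt (nn k₀) (p 0) ∧ tt (nn k₀) (p 0) ≤ 2
  · obtain ⟨k₀, h1, h2⟩ := hex
    have hz : ∀ k, k ≠ k₀ → F0 k p = 0 ∧ F1 k p = 0 := fun k hk =>
      F_zero k (ann_disj (Ne.symm hk) h1 h2)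
    by_cases hk : k₀ ∈ Finset.range K
    · fin_cases j
      · show ‖∑ k ∈ Finset.range K, F0 k p‖ ≤ C
        rw [Finset.sum_eq_single k₀ (fun k _ hk => (hz k hk).1) (fun h => absurd hk h)]
        exact (h k₀ p hp).1
      · show ‖∑ k ∈ Finset.range K, F1 k p‖ ≤ C
        rw [Finset.sum_eq_single k₀ (fun k _ hk => (hz k hk).2) (fun h => absurd hk h)]
        exact (h k₀ p hp).2
    · have hne : ∀ k ∈ Finset.range K, k ≠ k₀ := fun k hk1 hk2 => hk (hk2 ▸ hk1)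
      fin_cases j
      · show ‖∑ k ∈ Finset.range K, F0 k p‖ ≤ C
        rw [Finset.sum_eq_zero (fun k hk => (hz k (hne k hk)).1), norm_zero]
        exact hC.le
      · show ‖∑ k ∈ Finset.range K, F1 k p‖ ≤ C
        rw [Finset.sum_eq_zero (fun k hk => (hz k (hne k hk)).2), norm_zero]
        exact hC.le
  · push Not at hex
    have hz : ∀ k, F0 k p = 0 ∧ F1 k p = 0 := fun k => by
      apply F_zero k
      by_cases h1 : tt (nn k) (p 0) < 1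
      · exact Or.inl h1
      · exact Or.inr (hex k (not_lt.mp h1))
    fin_cases j
    · show ‖∑ k ∈ Finset.range K, F0 k p‖ ≤ C
      rw [Finset.sum_eq_zero (fun k _ => (hz k).1), norm_zero]
      exact hC.le
    · show ‖∑ k ∈ Finset.range K, F1 k p‖ ≤ C
      rw [Finset.sum_eq_zero (fun k _ => (hz k).2), norm_zero]
      exact hC.le

end

end Pool.Agent.Helper31.Dbar
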