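import Mathlib
import Pool.Agent.Helper31.Dbar.Form

/-!
# The test functions
-/

namespace Pool.Agent.Helper31.Dbar

open MeasureTheory Complex Filter Topology
open scoped ContDiff

noncomputable section

/-- a smooth step -/
def beta (t : ℝ) : ℝ := Real.smoothTransition (t - 1)

lemma beta_smooth : ContDiff ℝ ∞ beta :=
  Real.smoothTransition.contDiff.comp (contDiff_id.sub contDiff_const)

lemma beta_zero {t : ℝ} (h : t ≤ 1) : beta t = 0 :=
  Real.smoothTransition.zero_of_nonpos (by linarith)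

lemma beta_one {t : ℝ} (h : 2 ≤ t) : beta t = 1 :=
  Real.smoothTransition.one_of_one_le (by linarith)

lemma beta_diff : Differentiable ℝ beta := beta_smooth.differentiable (by simp)

lemma beta_deriv_zero {t : ℝ} (h : t < 1 ∨ 2 < t) : deriv beta t = 0 := by
  rcases h with h | h
  · have : beta =ᶠ[𝓝 t] fun _ => 0 := by
      filter_upwards [Iio_mem_nhds h] with x hx using beta_zero (le_of_lt hx)
    rw [this.deriv_eq, deriv_const]
  · have : beta =ᶠ[𝓝 t] fun _ => 1 := by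
      filter_upwards [Ioi_mem_nhds h] with x hx using beta_one (le_of_lt hx)
    rw [this.deriv_eq, deriv_const]

lemma beta_deriv_cont : Continuous (deriv beta) :=
  beta_smooth.continuous_deriv (by simp)

lemma beta_bound : ∃ M : ℝ, 0 < M ∧ ∀ t, |deriv beta t| ≤ M := by
  obtain ⟨M, hM⟩ := isCompact_Icc.exists_bound_of_continuousOn (s := Set.Icc (1 : ℝ) 2)
    beta_deriv_cont.continuousOn
  refine ⟨|M| + 1, by positivity, ?_⟩
  intro t
  by_cases h : t ∈ Set.Icc (1 : ℝ) 2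
  · have := hM t h
    rw [Real.norm_eq_abs] at this
    linarith [le_abs_self M]
  · rw [beta_deriv_zero, abs_zero]
    · positivity
    · rw [Set.mem_Icc] at h
      by_contra hcon
      push Not at hcon
      exact h hcon

/-- the bump in the fibre direction -/
def bump1 : ContDiffBump (0 : ℝ) where
  rIn := 1 / 2
  rOut := 1
  rIn_pos := by norm_num
  rIn_lt_rOut := by norm_num

/-- radial bump -/
def kap (ε : ℝ) (w : ℂ) : ℝ := bump1 (‖w‖ ^ 2 / ε)

lemma kap_smooth (ε : ℝ) : ContDiff ℝ ∞ (kap ε) :=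
  bump1.contDiff.comp ((contDiff_norm_sq ℝ).div_const _)

lemma kap_nonneg (ε : ℝ) (w : ℂ) : 0 ≤ kap ε w := bump1.nonneg

lemma kap_zero {ε : ℝ} (hε : 0 < ε) {w : ℂ} (hw : ε ≤ ‖w‖ ^ 2) : kap ε w = 0 := by
  apply bump1.zero_of_le_dist
  rw [Real.dist_eq, sub_zero, abs_of_nonneg (by positivity)]
  change 1 ≤ ‖w‖ ^ 2 / ε
  rw [le_div_iff₀ hε]
  linarith

lemma kap_origin (ε : ℝ) : kap ε 0 = 1 := by
  apply bump1.one_of_mem_closedBall
  simp [bump1.rIn_pos.le]

lemma kap_compact {ε : ℝ} (hε : 0 < ε) : HasCompactSupport (kap ε) := by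
  apply HasCompactSupport.of_support_subset_isCompact (isCompact_closedBall (0 : ℂ) (√ε))
  intro w hw
  rw [mem_closedBall_zero_iff]
  by_contra hcon
  push Not at hcon
  apply hw
  apply kap_zero hε
  have h1 : √ε ^ 2 ≤ ‖w‖ ^ 2 := by
    have := Real.sqrt_nonneg ε
    gcongr
  rwa [Real.sq_sqrt hε.le] at h1

lemma kap_int_pos {ε : ℝ} (hε : 0 < ε) : 0 < ∫ w, kap ε w := by
  apply (kap_smooth ε).continuous.integral_pos_of_hasCompactSupport_nonneg_nonzero
    (kap_compact hε) (kap_nonneg ε) (x := 0)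
  rw [kap_origin]; norm_num

lemma kap_moment (ε : ℝ) {m : ℕ} (hm : m ≠ 0) :
    ∫ w : ℂ, (kap ε w : ℂ) * (starRingEnd ℂ w) ^ m = 0 := by
  have h := integral_radial_zero (fun r => ((bump1 (r ^ 2 / ε) : ℝ) : ℂ)) (i := 0) (j := m)
    (Ne.symm hm)
  simpa [kap] using h

/-- cut-off in the base -/
def AA (N : ℝ) (z : ℂ) : ℂ := ((beta (N * (1 - ‖z‖ ^ 2)) : ℝ) : ℂ)

lemma AA_cd (N : ℝ) : ContDiff ℝ ∞ (AA N) :=
  ofRealCLM.contDiff.comp (beta_smooth.comp (tt_cd N))

lemma AA_wb (N : ℝ) (z : ℂ) : HasWb (AA N) (-(N * z * deriv beta (tt N z))) z :=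
  HasWb.radial N z (beta_diff _).hasDerivAt

lemma AA_zero {N : ℝ} {z : ℂ} (h : tt N z ≤ 1) : AA N z = 0 := by
  unfold AA
  have : beta (N * (1 - ‖z‖ ^ 2)) = 0 := beta_zero h
  rw [this]; simp

lemma AA_one {N : ℝ} {z : ℂ} (h : 2 ≤ tt N z) : AA N z = 1 := by
  unfold AA
  have : beta (N * (1 - ‖z‖ ^ 2)) = 1 := beta_one h
  rw [this]; simp

/-- the shear coordinate -/
def sh (p : Fin 2 → ℂ) : ℂ := p 1 - hh (p 0)

/-- chain rule with a holomorphic inner function -/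
lemma HasDbar.comp_holo {n : ℕ} {G : ℂ → ℂ} {γ : ℂ} {F : (Fin n → ℂ) → ℂ}
    {F' : (Fin n → ℂ) →L[ℂ] ℂ} {p : Fin n → ℂ} (hG : HasWb G γ (F p)) (hF : HasFDerivAt F F' p) :
    HasDbar (fun q => G (F q)) (fun j => γ * starRingEnd ℂ (F' (Pi.single j 1))) p := by
  have h1 := hG.1.hasFDerivAt.comp p (hF.restrictScalars ℝ)
  have h2 : HasFDerivAt (fun q => G (F q)) _ p := h1
  refine ⟨h2.differentiableAt, fun j => ?_⟩
  unfold dbar
  rw [h2.fderiv, ← hG.2]
  set L := fderiv ℝ G (F p) with hL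
  have e : (Pi.single j I : Fin n → ℂ) = I • Pi.single j 1 := by
    rw [← Pi.single_smul']; simp
  simp only [ContinuousLinearMap.comp_apply, ContinuousLinearMap.coe_restrictScalars']
  rw [e, map_smul, smul_eq_mul]
  set c := F' (Pi.single j 1) with hc
  have hLc : ∀ v : ℂ, L v = v.re * L 1 + v.im * L I := by
    intro v
    have e1 : v = v.re • (1 : ℂ) + v.im • I := by
      apply Complex.ext <;> simp
    conv_lhs => rw [e1]
    rw [map_add, map_smul, map_smul, Complex.real_smul, Complex.real_smul]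
  rw [hLc c, hLc (I * c)]
  have e3 : (starRingEnd ℂ c) = c.re - c.im * I := by
    apply Complex.ext <;> simp
  rw [e3]
  have e4 : (I * c).re = -c.im := by simp
  have e5 : (I * c).im = c.re := by simp
  rw [e4, e5]
  push_cast
  have hI : I * I = -1 := I_mul_I
  linear_combination ((1 / 2) * (c.im : ℂ) * L I) * hI

/-- first test function -/
def th0 (N : ℝ) (p : Fin 2 → ℂ) : ℂ := AA N (p 0) * (kap (1 / (2 * N)) (sh p) : ℂ)

/-- second test function -/
def th1 (N : ℝ) (p : Fin 2 → ℂ) : ℂ :=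
  starRingEnd ℂ (deriv hh (p 0)) * th0 N p

/-- the compact set containing the supports -/
def Kc (N : ℝ) : Set (Fin 2 → ℂ) := {p | 1 ≤ tt N (p 0) ∧ ‖sh p‖ ^ 2 ≤ 1 / (2 * N)}

lemma Kc_sub {N : ℝ} (hN : 0 < N) : Kc N ⊆ Om := by
  intro p hp
  obtain ⟨h1, h2⟩ := hp
  unfold tt at h1
  have h3 : 1 / N ≤ 1 - ‖p 0‖ ^ 2 := by
    rw [div_le_iff₀ hN]; linarith
  have h4 : 1 / (2 * N) < 1 / N := by
    apply one_div_lt_one_div_of_lt hN; linarith
  show ‖p 0‖ ^ 2 + ‖p 1 - hh (p 0)‖ ^ 2 < 1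
  have h5 : ‖p 1 - hh (p 0)‖ ^ 2 ≤ 1 / (2 * N) := h2
  linarith

lemma Kc_compact {N : ℝ} (hN : 1 ≤ N) : IsCompact (Kc N) := by
  have hN0 : 0 < N := by linarith
  have hA : IsCompact {z : ℂ | 1 ≤ tt N z} := by
    apply IsCompact.of_isClosed_subset (isCompact_closedBall (0 : ℂ) 1)
    · exact isClosed_le continuous_const (tt_cont N)
    · intro z hz
      have h1 : 1 ≤ tt N z := hz
      rw [mem_closedBall_zero_iff]
      by_contra hcon
      push Not at hcon
      exact absurd (tt_lt_one hN0 hcon.le) (not_lt.mpr h1)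
  have hB : IsCompact {w : ℂ | ‖w‖ ^ 2 ≤ 1 / (2 * N)} := by
    apply IsCompact.of_isClosed_subset (isCompact_closedBall (0 : ℂ) 1)
    · exact isClosed_le (by fun_prop) continuous_const
    · intro w hw
      have h1 : ‖w‖ ^ 2 ≤ 1 / (2 * N) := hw
      rw [mem_closedBall_zero_iff]
      have h2 : 1 / (2 * N) ≤ 1 := by
        rw [div_le_one (by linarith)]; linarith
      have h3 : ‖w‖ ^ 2 ≤ 1 ^ 2 := by linarith
      exact abs_le_of_sq_le_sq' h3 (by norm_num) |>.2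
  have hAB := hA.prod hB
  have hsubA : {z : ℂ | 1 ≤ tt N z} ⊆ Metric.ball 0 1 := by
    intro z hz
    have h1 : 1 ≤ tt N z := hz
    rw [mem_ball_zero_iff]
    by_contra hcon
    push Not at hcon
    exact absurd (tt_lt_one hN0 hcon) (not_lt.mpr h1)
  have hcont : ContinuousOn (fun q : ℂ × ℂ => (![q.1, q.2 + hh q.1] : Fin 2 → ℂ))
      ({z : ℂ | 1 ≤ tt N z} ×ˢ {w : ℂ | ‖w‖ ^ 2 ≤ 1 / (2 * N)}) := by
    rw [continuousOn_pi]
    intro i
    fin_cases i
    · exact continuous_fst.continuousOn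
    · apply ContinuousOn.add continuous_snd.continuousOn
      apply hh_diff.continuousOn.comp continuous_fst.continuousOn
      intro q hq
      exact hsubA hq.1
  have himg := hAB.image_of_continuousOn hcont
  convert himg using 1
  ext p
  constructor
  · intro hp
    refine ⟨(p 0, sh p), ⟨hp.1, hp.2⟩, ?_⟩
    funext i
    fin_cases i
    · rfl
    · simp [sh]
  · rintro ⟨q, ⟨h1, h2⟩, rfl⟩
    refine ⟨h1, ?_⟩
    have e : sh ![q.1, q.2 + hh q.1] = q.2 := by simp [sh]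
    rw [e]
    exact h2

lemma th0_supp {N : ℝ} (hN : 0 < N) {p : Fin 2 → ℂ} (hp : p ∉ Kc N) : th0 N p = 0 := by
  unfold th0
  by_cases h1 : 1 ≤ tt N (p 0)
  · have h2 : 1 / (2 * N) ≤ ‖sh p‖ ^ 2 := by
      by_contra hcon
      push Not at hcon
      exact hp ⟨h1, hcon.le⟩
    rw [kap_zero (by positivity) h2]; simp
  · rw [AA_zero (not_le.mp h1).le, zero_mul]

lemma th1_supp {N : ℝ} (hN : 0 < N) {p : Fin 2 → ℂ} (hp : p ∉ Kc N) : th1 N p = 0 := by
  unfold th1
  rw [th0_supp hN hp, mul_zero]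

lemma th0_cd (N : ℝ) : ContDiffOn ℝ ∞ (th0 N) UU := by
  apply ContDiffOn.mul
  · exact lift_cd (AA_cd N).contDiffOn
  · exact (ofRealCLM.contDiff.comp (kap_smooth _)).comp_contDiffOn sh_cd

lemma dh_cd : ContDiffOn ℝ ∞ (fun z => starRingEnd ℂ (deriv hh z)) (Metric.ball 0 1) := by
  have h := iter_cd 1
  rw [iteratedDeriv_one] at h
  exact (conjCLE : ℂ →L[ℝ] ℂ).contDiff.comp_contDiffOn h

lemma th1_cd (N : ℝ) : ContDiffOn ℝ ∞ (th1 N) UU :=
  (lift_cd dh_cd).mul (th0_cd N)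

lemma isTest_of {N : ℝ} (hN : 1 ≤ N) {θ : (Fin 2 → ℂ) → ℂ} (h1 : ContDiffOn ℝ ∞ θ UU)
    (h2 : ∀ p, p ∉ Kc N → θ p = 0) : IsTest Om θ := by
  have hN0 : 0 < N := by linarith
  have hK := Kc_compact hN
  have hs : tsupport θ ⊆ Kc N := by
    apply closure_minimal _ hK.isClosed
    intro p hp
    by_contra hcon
    exact hp (h2 p hcon)
  refine ⟨?_, ?_, hs.trans (Kc_sub hN0)⟩
  · rw [contDiff_iff_contDiffAt]
    intro p
    by_cases hp : p ∈ UU
    · exact h1.contDiffAt (UU_open.mem_nhds hp)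
    · have hp' : p ∉ tsupport θ := fun h => hp (Om_sub (Kc_sub hN0 (hs h)))
      exact contDiffAt_const.congr_of_eventuallyEq (notMem_tsupport_iff_eventuallyEq.mp hp')
  · exact HasCompactSupport.of_support_subset_isCompact hK ((subset_tsupport θ).trans hs)

lemma th0_test {N : ℝ} (hN : 1 ≤ N) : IsTest Om (th0 N) :=
  isTest_of hN (th0_cd N) (fun _ hp => th0_supp (by linarith) hp)

lemma th1_test {N : ℝ} (hN : 1 ≤ N) : IsTest Om (th1 N) :=
  isTest_of hN (th1_cd N) (fun _ hp => th1_supp (by linarith) hp)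

/-- the derivative of the base cut-off -/
def dA (N : ℝ) (z : ℂ) : ℂ := -(N * z * deriv beta (tt N z))

lemma dbar_th {N : ℝ} {p : Fin 2 → ℂ} (hp : p ∈ UU) :
    dbar 0 (th0 N) p + dbar 1 (th1 N) p = dA N (p 0) * (kap (1 / (2 * N)) (sh p) : ℂ) := by
  have hp' : ‖p 0‖ < 1 := hp
  have hA := (AA_wb N (p 0)).lift (n := 2) (i := 0) (p := p)
  have hk : ∃ γ, HasWb (fun w => (kap (1 / (2 * N)) w : ℂ)) γ (sh p) := by
    refine ⟨_, ?_, rfl⟩
    exact (ofRealCLM.contDiff.comp (kap_smooth (1 / (2 * N)))).differentiable (by simp) _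
  obtain ⟨γ, hγ⟩ := hk
  have hks := HasDbar.comp_holo (F := sh) hγ (shear_deriv hp')
  have h0 := hA.mul hks
  have hdh : HasDerivAt (deriv hh) (deriv (deriv hh) (p 0)) (p 0) :=
    ((hh_diff.deriv Metric.isOpen_ball).differentiableAt
      (Metric.isOpen_ball.mem_nhds (by simpa using hp'))).hasDerivAt
  have hc := (HasWb.conj hdh).lift (n := 2) (i := 0) (p := p)
  have h1 := hc.mul h0
  have e0 : dbar 0 (th0 N) p = _ := h0.2 0
  have e1 : dbar 1 (th1 N) p = _ := h1.2 1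
  rw [e0, e1]
  unfold dA
  simp
  ring

end

end Pool.Agent.Helper31.Dbar
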