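import Mathlib
import Pool.Agent.Helper31.Dbar.Test

/-!
# The duality argument
-/

namespace Pool.Agent.Helper31.Dbar

open MeasureTheory Complex Filter Topology
open scoped ContDiff

noncomputable section

/-- integration in the sheared coordinates -/
lemma shear_integral {V : Type*} [NormedAddCommGroup V] [NormedSpace ℝ V] (g : ℂ → ℂ → V)
    (hint : Integrable (fun p : Fin 2 → ℂ => g (p 0) (sh p))) :
    ∫ p : Fin 2 → ℂ, g (p 0) (sh p) = ∫ z : ℂ, ∫ w : ℂ, g z w := by
  have hmp := (volume_preserving_finTwoArrow ℂ).symm (MeasurableEquiv.finTwoArrow)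
  have h1 := hmp.integral_comp (MeasurableEquiv.finTwoArrow.symm.measurableEmbedding)
    (fun p : Fin 2 → ℂ => g (p 0) (sh p))
  have h2 : Integrable ((fun p : Fin 2 → ℂ => g (p 0) (sh p)) ∘
      (MeasurableEquiv.finTwoArrow (α := ℂ)).symm) :=
    (hmp.integrable_comp_emb (MeasurableEquiv.finTwoArrow.symm.measurableEmbedding)).mpr hint
  have e : ((fun p : Fin 2 → ℂ => g (p 0) (sh p)) ∘ (MeasurableEquiv.finTwoArrow (α := ℂ)).symm) =
      fun q : ℂ × ℂ => g q.1 (q.2 - hh q.1) := by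
    funext q
    simp [sh, MeasurableEquiv.finTwoArrow]
  rw [← h1]
  have e' : ∀ q : ℂ × ℂ, (fun p : Fin 2 → ℂ => g (p 0) (sh p))
      ((MeasurableEquiv.finTwoArrow (α := ℂ)).symm q) = g q.1 (q.2 - hh q.1) := fun q =>
    congrFun e q
  simp only [e']
  rw [e] at h2
  have h3 : (volume : Measure (ℂ × ℂ)) = volume.prod volume := rfl
  rw [h3, integral_prod _ h2]
  congr 1
  funext z
  exact integral_sub_right_eq_self (fun w => g z w) (hh z)

lemma kap_cint {ε : ℝ} (hε : 0 < ε) (m : ℕ) :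
    Integrable fun w : ℂ => (kap ε w : ℂ) * (starRingEnd ℂ w) ^ m := by
  have hc : Continuous (fun w : ℂ => (kap ε w : ℂ) * (starRingEnd ℂ w) ^ m) := by
    have h1 := (kap_smooth ε).continuous
    have h2 := Complex.continuous_conj
    fun_prop
  apply hc.integrable_of_hasCompactSupport
  have h1 : HasCompactSupport fun w : ℂ => (kap ε w : ℂ) :=
    (kap_compact hε).comp_left (g := fun x : ℝ => (x : ℂ)) (by simp)
  exact h1.mul_right

/-- the integral of the fibre bump -/
def kI (ε : ℝ) : ℝ := ∫ w : ℂ, kap ε w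

lemma kap_c0 (ε : ℝ) : ∫ w : ℂ, (kap ε w : ℂ) = (kI ε : ℂ) := by
  rw [kI, ← integral_complex_ofReal]

lemma th0_eq (N : ℝ) (p : Fin 2 → ℂ) :
    th0 N p = AA N (p 0) * (kap (1 / (2 * N)) (sh p) : ℂ) := rfl

lemma int_F0 {N : ℝ} (hN : 1 ≤ N) (k : ℕ) :
    Integrable (fun p => F0 k p * th0 N p) ∧ ∫ p, F0 k p * th0 N p = 0 := by
  have ht := th0_test hN
  have hi : Integrable (fun p => F0 k p * th0 N p) :=
    int_mul_of_supp UU_open (F0_cd k).continuousOn ht.smooth.continuous ht.compact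
      (ht.supp.trans Om_sub)
  refine ⟨hi, ?_⟩
  obtain ⟨g, hg⟩ : ∃ g : ℂ → ℂ → ℂ, g = (fun (z w : ℂ) => SS k z *
      ((nn k / (6 * (ak k : ℂ) ^ 2)) * W4 k z) * AA N z *
        ((kap (1 / (2 * N)) w : ℂ) * (starRingEnd ℂ w) ^ 3)) := ⟨_, rfl⟩
  have e : (fun p : Fin 2 → ℂ => F0 k p * th0 N p) = fun p => g (p 0) (sh p) := by
    funext p
    simp only [hg, F0, th0, ww, sh]
    ring
  rw [e] at hi ⊢
  rw [shear_integral g hi, hg]
  simp only [integral_const_mul, kap_moment _ (show 3 ≠ 0 by norm_num), mul_zero, integral_zero]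

lemma int_F1 {N : ℝ} (hN : 1 ≤ N) (k : ℕ) :
    Integrable (fun p => F1 k p * th1 N p) ∧ ∫ p, F1 k p * th1 N p =
      (∫ z : ℂ, SS k z * W1 k z * starRingEnd ℂ (deriv hh z) * AA N z) * kI (1 / (2 * N)) := by
  have ht := th1_test hN
  have hε : 0 < 1 / (2 * N) := by positivity
  have hi : Integrable (fun p => F1 k p * th1 N p) :=
    int_mul_of_supp UU_open (F1_cd k).continuousOn ht.smooth.continuous ht.compact
      (ht.supp.trans Om_sub)
  refine ⟨hi, ?_⟩
  obtain ⟨g, hg⟩ : ∃ g : ℂ → ℂ → ℂ, g =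
      (fun (z w : ℂ) => (SS k z * W1 k z * starRingEnd ℂ (deriv hh z) * AA N z) *
          (kap (1 / (2 * N)) w : ℂ) +
        ((SS k z * W2 k z * starRingEnd ℂ (deriv hh z) * AA N z) *
          ((kap (1 / (2 * N)) w : ℂ) * (starRingEnd ℂ w) ^ 1) +
        (SS k z * (1 / 2 * W3 k z) * starRingEnd ℂ (deriv hh z) * AA N z) *
          ((kap (1 / (2 * N)) w : ℂ) * (starRingEnd ℂ w) ^ 2))) := ⟨_, rfl⟩
  have e : (fun p : Fin 2 → ℂ => F1 k p * th1 N p) = fun p => g (p 0) (sh p) := by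
    funext p
    simp only [hg, F1, th1, th0, ww, sh]
    ring
  rw [e] at hi ⊢
  rw [shear_integral g hi, hg]
  have i0 : Integrable fun w : ℂ => (kap (1 / (2 * N)) w : ℂ) := by
    simpa using kap_cint hε 0
  have hin : ∀ a b c : ℂ, ∫ w : ℂ, (a * (kap (1 / (2 * N)) w : ℂ) +
      (b * ((kap (1 / (2 * N)) w : ℂ) * (starRingEnd ℂ w) ^ 1) +
        c * ((kap (1 / (2 * N)) w : ℂ) * (starRingEnd ℂ w) ^ 2))) = a * kI (1 / (2 * N)) := by
    intro a b c
    have i12 : Integrable (fun w : ℂ => b * ((kap (1 / (2 * N)) w : ℂ) * (starRingEnd ℂ w) ^ 1) +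
        c * ((kap (1 / (2 * N)) w : ℂ) * (starRingEnd ℂ w) ^ 2)) :=
      ((kap_cint hε 1).const_mul b).add ((kap_cint hε 2).const_mul c)
    rw [integral_add (i0.const_mul a) i12,
      integral_add ((kap_cint hε 1).const_mul b) ((kap_cint hε 2).const_mul c),
      integral_const_mul, integral_const_mul, integral_const_mul,
      kap_moment _ (show 1 ≠ 0 by norm_num), kap_moment _ (show 2 ≠ 0 by norm_num), kap_c0]
    ring
  simp only [hin]
  rw [integral_mul_const]

lemma base_integrand {k K : ℕ} (hk : k < K) (z : ℂ) :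
    SS k z * W1 k z * starRingEnd ℂ (deriv hh z) * AA (nn K) z =
      ((rho (tt (nn k) z) * ((ak k * nn k) * (‖deriv hh z‖ / (ak k * nn k)) ^ 10) : ℝ) : ℂ) := by
  by_cases hz : tt (nn k) z < 1 ∨ 2 < tt (nn k) z
  · have h1 : rho (tt (nn k) z) = 0 := by
      rw [← rhoD_zero]; exact rhoD_eq_zero 0 hz
    rw [(W_zero k hz).1, h1]
    simp
  · push Not at hz
    obtain ⟨h1, h2⟩ := hz
    have hn := nn_pos k
    have hAA : AA (nn K) z = 1 := by
      apply AA_one
      unfold tt at *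
      have h3 : (2 : ℝ) * nn k < nn K := by exact_mod_cast nn_ratio hk
      have hpos : 0 < 1 - ‖z‖ ^ 2 := by
        by_contra hcon
        push Not at hcon
        nlinarith
      nlinarith
    rw [hAA, mul_one]
    unfold SS ss W1 bb rR
    rw [rhoD_zero, zero_add, iteratedDeriv_one, pow_one]
    have ha := ak_ne k
    have hn' := nn_ne k
    have key : ((‖deriv hh z‖ ^ 10 : ℝ) : ℂ) =
        (deriv hh z) ^ 5 * (starRingEnd ℂ (deriv hh z)) ^ 5 := by
      rw [← mul_pow, Complex.mul_conj, Complex.normSq_eq_norm_sq]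
      push_cast
      ring
    push_cast at key ⊢
    rw [div_pow (‖deriv hh z‖ : ℂ) _ 10, key]
    field_simp

lemma dbar_cont {n : ℕ} {Ω : Set (Fin n → ℂ)} {θ : (Fin n → ℂ) → ℂ} (hθ : IsTest Ω θ)
    (j : Fin n) : Continuous (dbar j θ) := by
  have hθ1 : ContDiff ℝ 1 θ := hθ.smooth.of_le (by exact_mod_cast le_top)
  have hθ' : Continuous (fderiv ℝ θ) := hθ1.continuous_fderiv one_ne_zero
  unfold dbar
  exact continuous_const.mul ((hθ'.clm_apply continuous_const).add
    (continuous_const.mul (hθ'.clm_apply continuous_const)))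

lemma dbar_int {n : ℕ} {Ω : Set (Fin n → ℂ)} {θ : (Fin n → ℂ) → ℂ} (hθ : IsTest Ω θ)
    (j : Fin n) : Integrable (dbar j θ) := by
  apply (dbar_cont hθ j).integrable_of_hasCompactSupport
  apply HasCompactSupport.of_support_subset_isCompact hθ.compact
  intro p hp
  by_contra hcon
  exact hp (dbar_eq_zero_of_notMem hcon j)

/-- the error function -/
def GG (N : ℝ) (p : Fin 2 → ℂ) : ℂ := dA N (p 0) * (kap (1 / (2 * N)) (sh p) : ℂ)

lemma dA_cont (N : ℝ) : Continuous (dA N) := by
  have h1 := beta_deriv_cont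
  have h2 := tt_cont N
  unfold dA
  fun_prop

lemma dA_zero {N : ℝ} {z : ℂ} (h : tt N z < 1 ∨ 2 < tt N z) : dA N z = 0 := by
  unfold dA
  rw [beta_deriv_zero h]
  simp

lemma GG_int {N : ℝ} (hN : 1 ≤ N) : Integrable (GG N) := by
  have hN0 : 0 < N := by linarith
  have hK := Kc_compact hN
  have hsup : ∀ p, p ∉ Kc N → GG N p = 0 := by
    intro p hp
    unfold GG
    by_cases h1 : 1 ≤ tt N (p 0)
    · have h2 : 1 / (2 * N) ≤ ‖sh p‖ ^ 2 := by
        by_contra hcon
        push Not at hcon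
        exact hp ⟨h1, hcon.le⟩
      rw [kap_zero (by positivity) h2]; simp
    · rw [dA_zero (Or.inl (not_le.mp h1)), zero_mul]
  have hs : tsupport (GG N) ⊆ Kc N := by
    apply closure_minimal _ hK.isClosed
    intro p hp
    by_contra hcon
    exact hp (hsup p hcon)
  have hc : Continuous (GG N) := by
    rw [continuous_iff_continuousAt]
    intro p
    by_cases hp : p ∈ UU
    · have h1 : ContinuousOn (GG N) UU := by
        apply ContinuousOn.mul
        · exact ((dA_cont N).comp (continuous_apply 0)).continuousOn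
        · exact ((ofRealCLM.contDiff.comp (kap_smooth _)).comp_contDiffOn sh_cd).continuousOn
      exact h1.continuousAt (UU_open.mem_nhds hp)
    · have hp' : p ∉ tsupport (GG N) := fun h => hp (Om_sub (Kc_sub hN0 (hs h)))
      exact continuousAt_const.congr (notMem_tsupport_iff_eventuallyEq.mp hp').symm
  exact hc.integrable_of_hasCompactSupport
    (HasCompactSupport.of_support_subset_isCompact hK ((subset_tsupport _).trans hs))

lemma GG_norm {N : ℝ} (hN : 1 ≤ N) :
    ∫ p, ‖GG N p‖ = (∫ z : ℂ, ‖dA N z‖) * kI (1 / (2 * N)) := by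
  have hi := (GG_int hN).norm
  obtain ⟨g, hg⟩ : ∃ g : ℂ → ℂ → ℝ, g =
      (fun (z w : ℂ) => ‖dA N z‖ * kap (1 / (2 * N)) w) := ⟨_, rfl⟩
  have e : (fun p : Fin 2 → ℂ => ‖GG N p‖) = fun p => g (p 0) (sh p) := by
    funext p
    simp only [hg, GG]
    rw [norm_mul, Complex.norm_real, Real.norm_eq_abs, abs_of_nonneg (kap_nonneg _ _)]
  rw [e] at hi ⊢
  rw [shear_integral g hi, hg]
  simp only [integral_const_mul]
  rw [integral_mul_const, kI]

/-- **The duality estimate.** -/
theorem dual_bound {K : ℕ} {u : (Fin 2 → ℂ) → ℂ} {U : ℝ} (hU : 0 ≤ U)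
    (hu : MemLp u ⊤ (volume.restrict Om)) (hsol : DbarSolves Om u (FF K))
    (hub : ∀ᵐ p ∂(volume.restrict Om), ‖u p‖ ≤ U) :
    ∑ k ∈ Finset.range K, ∫ z : ℂ, rho (tt (nn k) z) *
      ((ak k * nn k) * (‖deriv hh z‖ / (ak k * nn k)) ^ 10) ≤ U * ∫ z : ℂ, ‖dA (nn K) z‖ := by
  obtain ⟨N, hNdef⟩ : ∃ N : ℝ, N = (nn K : ℝ) := ⟨_, rfl⟩
  have hN4 : (4 : ℝ) ≤ nn K := by exact_mod_cast nn_four K
  have hN : 1 ≤ N := by linarith
  have hε : 0 < 1 / (2 * N) := by positivity
  have t0 := th0_test hN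
  have t1 := th1_test hN
  have s0 := hsol 0 _ t0
  have s1 := hsol 1 _ t1
  rw [setInt_test t0] at s0
  rw [setInt_test t1] at s1
  -- the left-hand sides
  have i0 : Integrable (fun p => u p * dbar 0 (th0 N) p) (volume.restrict Om) :=
    ((dbar_int t0 0).restrict).mul_of_top_right hu
  have i1 : Integrable (fun p => u p * dbar 1 (th1 N) p) (volume.restrict Om) :=
    ((dbar_int t1 1).restrict).mul_of_top_right hu
  have hOm : MeasurableSet Om := by
    have : Om = {p : Fin 2 → ℂ | p ∈ UU ∧ ‖p 0‖ ^ 2 + ‖p 1 - hh (p 0)‖ ^ 2 < 1} := by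
      ext p; exact ⟨fun h => ⟨Om_sub h, h⟩, fun h => h.2⟩
    rw [this]
    have h2 : ContinuousOn (fun p : Fin 2 → ℂ => ‖p 0‖ ^ 2 + ‖p 1 - hh (p 0)‖ ^ 2) UU := by
      have := sh_cd.continuousOn
      fun_prop
    have h3 := h2.isOpen_inter_preimage UU_open (isOpen_Iio (a := (1 : ℝ)))
    exact h3.measurableSet
  have hsum : ∫ p in Om, u p * GG N p = -((∫ p, FF K 0 p * th0 N p) + ∫ p, FF K 1 p * th1 N p) := by
    have h1 : ∫ p in Om, u p * GG N p =
        ∫ p in Om, (u p * dbar 0 (th0 N) p + u p * dbar 1 (th1 N) p) := by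
      apply setIntegral_congr_fun hOm
      intro p hp
      simp only
      rw [GG, ← dbar_th (Om_sub hp)]
      ring
    rw [h1, integral_add i0 i1, s0, s1]
    ring
  -- the right-hand side
  have hF0 : ∫ p, FF K 0 p * th0 N p = 0 := by
    have e : ∀ p, FF K 0 p * th0 N p = ∑ k ∈ Finset.range K, F0 k p * th0 N p := by
      intro p
      show (∑ k ∈ Finset.range K, F0 k p) * th0 N p = _
      rw [Finset.sum_mul]
    simp only [e]
    rw [integral_finsetSum _ (fun k _ => (int_F0 hN k).1)]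
    exact Finset.sum_eq_zero fun k _ => (int_F0 hN k).2
  have hF1 : ∫ p, FF K 1 p * th1 N p = ((∑ k ∈ Finset.range K, ∫ z : ℂ, rho (tt (nn k) z) *
      ((ak k * nn k) * (‖deriv hh z‖ / (ak k * nn k)) ^ 10) : ℝ) : ℂ) * kI (1 / (2 * N)) := by
    have e : ∀ p, FF K 1 p * th1 N p = ∑ k ∈ Finset.range K, F1 k p * th1 N p := by
      intro p
      show (∑ k ∈ Finset.range K, F1 k p) * th1 N p = _
      rw [Finset.sum_mul]
    simp only [e]
    rw [integral_finsetSum _ (fun k _ => (int_F1 hN k).1), Complex.ofReal_sum, Finset.sum_mul]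
    apply Finset.sum_congr rfl
    intro k hk
    rw [(int_F1 hN k).2]
    congr 1
    rw [← integral_complex_ofReal]
    congr 1
    funext z
    rw [hNdef]
    exact base_integrand (Finset.mem_range.mp hk) z
  rw [hF0, hF1, zero_add] at hsum
  set S : ℝ := ∑ k ∈ Finset.range K, ∫ z : ℂ, rho (tt (nn k) z) *
      ((ak k * nn k) * (‖deriv hh z‖ / (ak k * nn k)) ^ 10) with hS
  have hkI : 0 < kI (1 / (2 * N)) := kap_int_pos hε
  have h1 : ‖∫ p in Om, u p * GG N p‖ ≤ U * ((∫ z : ℂ, ‖dA N z‖) * kI (1 / (2 * N))) := by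
    calc ‖∫ p in Om, u p * GG N p‖ ≤ ∫ p in Om, U * ‖GG N p‖ := by
          apply norm_integral_le_of_norm_le
          · exact ((GG_int hN).norm.restrict).const_mul U
          · filter_upwards [hub] with p hp
            rw [norm_mul]
            gcongr
      _ = U * ∫ p in Om, ‖GG N p‖ := by rw [integral_const_mul]
      _ ≤ U * ∫ p, ‖GG N p‖ := by
          apply mul_le_mul_of_nonneg_left _ hU
          exact setIntegral_le_integral (GG_int hN).norm (Eventually.of_forall fun p => norm_nonneg _)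
      _ = _ := by rw [GG_norm hN]
  rw [hsum, norm_neg, norm_mul, Complex.norm_real, Complex.norm_real, Real.norm_eq_abs,
    Real.norm_eq_abs, abs_of_pos hkI] at h1
  rw [← hNdef]
  have h2 : |S| ≤ U * ∫ z : ℂ, ‖dA N z‖ := by
    have h3 : |S| * kI (1 / (2 * N)) ≤ (U * ∫ z : ℂ, ‖dA N z‖) * kI (1 / (2 * N)) := by
      linarith
    exact le_of_mul_le_mul_right h3 hkI
  exact (le_abs_self S).trans h2

lemma dA_int_le : ∃ M : ℝ, 0 < M ∧ ∀ N : ℝ, 2 ≤ N → ∫ z : ℂ, ‖dA N z‖ ≤ M := by
  obtain ⟨M, hM0, hM⟩ := beta_bound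
  refine ⟨M * Real.pi, by positivity, ?_⟩
  intro N hN
  have h0 : 0 < N := by linarith
  have hfin : volume (ann N 1 2) ≠ ⊤ := by
    rw [ann_eq h0 (by norm_num) hN]
    exact ((measure_mono Set.sdiff_subset).trans_lt measure_closedBall_lt_top).ne
  have hpt : ∀ z : ℂ, ‖dA N z‖ ≤ (ann N 1 2).indicator (fun _ => N * M) z := by
    intro z
    by_cases hz : z ∈ ann N 1 2
    · rw [Set.indicator_of_mem hz]
      have hz1 : ‖z‖ ≤ 1 := by
        by_contra hcon
        push Not at hcon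
        exact absurd (tt_lt_one h0 hcon.le) (not_lt.mpr hz.1)
      unfold dA
      rw [norm_neg, norm_mul, norm_mul, Complex.norm_real, Complex.norm_real, Real.norm_eq_abs,
        Real.norm_eq_abs, abs_of_pos h0]
      calc N * ‖z‖ * |deriv beta (tt N z)| ≤ N * 1 * M := by
            gcongr
            exact hM _
        _ = N * M := by ring
    · rw [Set.indicator_of_notMem hz, dA_zero, norm_zero]
      by_contra hcon
      push Not at hcon
      exact hz hcon
  have hint : Integrable (fun z => (ann N 1 2).indicator (fun _ => N * M) z) := by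
    rw [integrable_indicator_iff (ann_meas _ _ _)]
    exact integrableOn_const hfin enorm_ne_top
  calc ∫ z : ℂ, ‖dA N z‖ ≤ ∫ z : ℂ, (ann N 1 2).indicator (fun _ => N * M) z :=
        integral_mono_of_nonneg (Eventually.of_forall fun z => norm_nonneg _) hint
          (Eventually.of_forall hpt)
    _ = M * Real.pi := by
        rw [integral_indicator_const _ (ann_meas _ _ _), ann_volume h0 (by norm_num) hN]
        simp
        field_simp
        norm_num

end

end Pool.Agent.Helper31.Dbar
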