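import Mathlib
import Pool.Agent.Helper31.Dbar.Dual

/-!
# The counterexample
-/

namespace Pool.Agent.Helper31.Dbar

open MeasureTheory Complex Filter Topology
open scoped ContDiff ENNReal NNReal

noncomputable section

/-- the shear -/
def shF (p : Fin 2 → ℂ) : Fin 2 → ℂ := ![p 0, p 1 + hh (p 0)]

/-- its inverse -/
def shG (p : Fin 2 → ℂ) : Fin 2 → ℂ := ![p 0, p 1 - hh (p 0)]

lemma mem_unitBall (p : Fin 2 → ℂ) : p ∈ unitBall 2 ↔ ‖p 0‖ ^ 2 + ‖p 1‖ ^ 2 < 1 := by
  unfold unitBall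
  rw [Set.mem_ofPred_eq, Fin.sum_univ_two]

lemma unitBall_sub : unitBall 2 ⊆ UU := by
  intro p hp
  rw [mem_unitBall] at hp
  have h2 : ‖p 0‖ ^ 2 < 1 ^ 2 := by nlinarith [sq_nonneg ‖p 1‖]
  exact lt_of_pow_lt_pow_left₀ 2 (by norm_num) h2

lemma shF_maps : Set.MapsTo shF (unitBall 2) Om := by
  intro p hp
  rw [mem_unitBall] at hp
  show ‖shF p 0‖ ^ 2 + ‖shF p 1 - hh (shF p 0)‖ ^ 2 < 1
  simpa [shF] using hp

lemma shG_maps : Set.MapsTo shG Om (unitBall 2) := by
  intro p hp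
  rw [mem_unitBall]
  have hp' : ‖p 0‖ ^ 2 + ‖p 1 - hh (p 0)‖ ^ 2 < 1 := hp
  simpa [shG] using hp'

lemma shG_shF (p : Fin 2 → ℂ) : shG (shF p) = p := by
  funext i
  fin_cases i <;> simp [shG, shF]

lemma shF_shG (p : Fin 2 → ℂ) : shF (shG p) = p := by
  funext i
  fin_cases i <;> simp [shG, shF]

lemma hh_comp_diff : DifferentiableOn ℂ (fun p : Fin 2 → ℂ => hh (p 0)) UU := by
  intro p hp
  have h := (hh_diffAt (p 0) hp).comp p
    (ContinuousLinearMap.proj 0 : (Fin 2 → ℂ) →L[ℂ] ℂ).differentiableAt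
  exact h.differentiableWithinAt

lemma shF_diff : DifferentiableOn ℂ shF UU := by
  unfold shF
  rw [differentiableOn_pi]
  intro i
  have h0 : DifferentiableOn ℂ (fun p : Fin 2 → ℂ => p 0) UU :=
    (ContinuousLinearMap.proj 0 : (Fin 2 → ℂ) →L[ℂ] ℂ).differentiable.differentiableOn
  have h1 : DifferentiableOn ℂ (fun p : Fin 2 → ℂ => p 1) UU :=
    (ContinuousLinearMap.proj 1 : (Fin 2 → ℂ) →L[ℂ] ℂ).differentiable.differentiableOn
  fin_cases i
  · exact h0
  · exact h1.add hh_comp_diff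

lemma shG_diff : DifferentiableOn ℂ shG UU := by
  unfold shG
  rw [differentiableOn_pi]
  intro i
  have h0 : DifferentiableOn ℂ (fun p : Fin 2 → ℂ => p 0) UU :=
    (ContinuousLinearMap.proj 0 : (Fin 2 → ℂ) →L[ℂ] ℂ).differentiable.differentiableOn
  have h1 : DifferentiableOn ℂ (fun p : Fin 2 → ℂ => p 1) UU :=
    (ContinuousLinearMap.proj 1 : (Fin 2 → ℂ) →L[ℂ] ℂ).differentiable.differentiableOn
  fin_cases i
  · exact h0
  · exact h1.sub hh_comp_diff

lemma biholo : BiholomorphicToBall Om :=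
  ⟨shF, shG, shF_diff.mono unitBall_sub, shG_diff.mono Om_sub, shF_maps, shG_maps,
    fun p _ => shG_shF p, fun p _ => shF_shG p⟩

lemma Om_open : IsOpen Om := by
  have : Om = {p : Fin 2 → ℂ | p ∈ UU ∧ ‖p 0‖ ^ 2 + ‖p 1 - hh (p 0)‖ ^ 2 < 1} := by
    ext p; exact ⟨fun h => ⟨Om_sub h, h⟩, fun h => h.2⟩
  rw [this]
  have h2 : ContinuousOn (fun p : Fin 2 → ℂ => ‖p 0‖ ^ 2 + ‖p 1 - hh (p 0)‖ ^ 2) UU := by
    have := sh_cd.continuousOn
    fun_prop
  exact h2.isOpen_inter_preimage UU_open (isOpen_Iio (a := (1 : ℝ)))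

lemma unitBall_connected : IsConnected (unitBall 2) := by
  have hne : (0 : Fin 2 → ℂ) ∈ unitBall 2 := by
    rw [mem_unitBall]; simp
  have hs : StarConvex ℝ (0 : Fin 2 → ℂ) (unitBall 2) := by
    intro y hy a b ha hb hab
    rw [mem_unitBall] at hy ⊢
    have hb1 : b ≤ 1 := by linarith
    simp only [smul_zero, zero_add, Pi.smul_apply, norm_smul, Real.norm_eq_abs, abs_of_nonneg hb]
    have h2 : b ^ 2 ≤ 1 := pow_le_one₀ hb hb1
    nlinarith [sq_nonneg ‖y 0‖, sq_nonneg ‖y 1‖]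
  exact (hs.isPathConnected hne).isConnected

lemma Om_domain : IsBoundedDomain Om := by
  refine ⟨Om_open, ?_, ?_⟩
  · have h : shF '' unitBall 2 = Om := by
      apply Set.Subset.antisymm
      · exact shF_maps.image_subset
      · intro p hp
        exact ⟨shG p, shG_maps hp, shF_shG p⟩
    rw [← h]
    exact unitBall_connected.image _ (shF_diff.mono unitBall_sub).continuousOn
  · rw [isBounded_iff_forall_norm_le]
    refine ⟨4, fun p hp => ?_⟩
    have hp' : ‖p 0‖ ^ 2 + ‖p 1 - hh (p 0)‖ ^ 2 < 1 := hp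
    have h0 : ‖p 0‖ < 1 := Om_sub hp
    have h1 : ‖p 1 - hh (p 0)‖ ≤ 1 := by
      have h2 : ‖p 1 - hh (p 0)‖ ^ 2 ≤ 1 ^ 2 := by nlinarith [sq_nonneg ‖p 0‖]
      exact abs_le_of_sq_le_sq' h2 (by norm_num) |>.2
    have h3 := hh_norm (p 0) h0
    have h4 : ‖p 1‖ ≤ 4 := by
      calc ‖p 1‖ = ‖(p 1 - hh (p 0)) + hh (p 0)‖ := by ring_nf
        _ ≤ ‖p 1 - hh (p 0)‖ + ‖hh (p 0)‖ := norm_add_le _ _
        _ ≤ 4 := by linarith
    rw [pi_norm_le_iff_of_nonneg (by norm_num)]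
    intro i
    fin_cases i
    · exact h0.le.trans (by norm_num)
    · exact h4

theorem not_uniform : ¬ UniformEstimates Om := by
  rintro ⟨C, hC⟩
  obtain ⟨C2, hC2, hF⟩ := FF_bound
  obtain ⟨M, hM0, hM⟩ := dA_int_le
  have hOm : MeasurableSet Om := Om_open.measurableSet
  set U : ℝ := C * (2 * C2) with hU
  have hU0 : 0 ≤ U := by positivity
  have key : ∀ K : ℕ, (Real.pi * cc ^ 10) * ∑ k ∈ Finset.range K, ak k ≤ U * M := by
    intro K
    have hmeas : ∀ j, AEStronglyMeasurable (FF K j) (volume.restrict Om) := fun j =>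
      (((FF_cd K j).continuousOn).mono Om_sub).aestronglyMeasurable hOm
    have hmem : ∀ j, MemLp (FF K j) ⊤ (volume.restrict Om) := by
      intro j
      apply memLp_top_of_bound (hmeas j) C2
      exact (ae_restrict_iff' hOm).mpr (Eventually.of_forall fun p hp => hF K j p hp)
    obtain ⟨u, hu, hsol, hnorm⟩ := hC (FF K) hmem (FF_closed K)
    have hform : formNorm Om (FF K) ≤ ENNReal.ofReal (2 * C2) := by
      unfold formNorm
      rw [eLpNorm_exponent_top]
      apply eLpNormEssSup_le_of_ae_bound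
      refine (ae_restrict_iff' hOm).mpr (Eventually.of_forall fun p hp => ?_)
      rw [Real.norm_eq_abs, abs_of_nonneg (Real.sqrt_nonneg _), Fin.sum_univ_two]
      apply Real.sqrt_le_iff.mpr
      refine ⟨by positivity, ?_⟩
      have h0 := hF K 0 p hp
      have h1 := hF K 1 p hp
      have h0' : ‖FF K 0 p‖ ^ 2 ≤ C2 ^ 2 := by gcongr
      have h1' : ‖FF K 1 p‖ ^ 2 ≤ C2 ^ 2 := by gcongr
      nlinarith [sq_nonneg C2]
    have hub : ∀ᵐ p ∂(volume.restrict Om), ‖u p‖ ≤ U := by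
      have h1 : ∀ᵐ p ∂(volume.restrict Om), ‖u p‖ₑ ≤ eLpNorm u ⊤ (volume.restrict Om) := by
        rw [eLpNorm_exponent_top]
        exact enorm_ae_le_eLpNormEssSup u _
      filter_upwards [h1] with p hp
      have h2 : ‖u p‖ₑ ≤ ENNReal.ofReal U := by
        refine (hp.trans hnorm).trans ?_
        rw [hU, ENNReal.ofReal_mul (by positivity), ENNReal.ofReal_coe_nnreal]
        gcongr
      rw [← ofReal_norm] at h2
      exact (ENNReal.ofReal_le_ofReal_iff hU0).mp h2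
    have h1 := dual_bound hU0 hu hsol hub
    have hN2 : (2 : ℝ) ≤ nn K := by
      have : (4 : ℝ) ≤ nn K := by exact_mod_cast nn_four K
      linarith
    have h2 := hM (nn K) hN2
    calc (Real.pi * cc ^ 10) * ∑ k ∈ Finset.range K, ak k
        = ∑ k ∈ Finset.range K, (Real.pi * cc ^ 10) * ak k := by rw [Finset.mul_sum]
      _ ≤ ∑ k ∈ Finset.range K, ∫ z : ℂ, rho (tt (nn k) z) *
            ((ak k * nn k) * (‖deriv hh z‖ / (ak k * nn k)) ^ 10) :=
          Finset.sum_le_sum fun k _ => lower_bound k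
      _ ≤ U * ∫ z : ℂ, ‖dA (nn K) z‖ := h1
      _ ≤ U * M := by gcongr
  have hc : 0 < Real.pi * cc ^ 10 := by
    have := cc_pos
    positivity
  have ht : Tendsto (fun K => (Real.pi * cc ^ 10) * ∑ k ∈ Finset.range K, ak k) atTop atTop := by
    apply Tendsto.const_mul_atTop hc
    exact Real.tendsto_sum_range_one_div_nat_succ_atTop
  obtain ⟨K, hK⟩ := (ht.eventually_gt_atTop (U * M)).exists
  exact absurd (key K) (not_le.mpr hK)

end

end Pool.Agent.Helper31.Dbar
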